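import Pool.Agent.TH789.LT.Per

set_option autoImplicit false

open MeasureTheory Set Filter Topology
open scoped ContDiff

namespace Pool.Agent.TH789.LT

open Pool.Agent.H239R2.Flat

variable {n : ℕ}

/-- open unit cube -/
def ocube (n : ℕ) : Set (Fin n → ℝ) := Set.univ.pi fun _ => Ioo (0 : ℝ) 1

theorem ocube_open : IsOpen (ocube n) := isOpen_set_pi finite_univ fun _ _ => isOpen_Ioo

theorem ocube_sub : ocube n ⊆ COEF_cube n := by
  intro x hx i
  have := hx i (mem_univ i)
  exact ⟨this.1, by linarith [this.2]⟩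

theorem cube_fin : volume (COEF_cube n) ≠ ⊤ := by
  have h : COEF_cube n ⊆ Metric.closedBall 0 1 := by
    intro x hx
    rw [mem_closedBall_zero_iff, pi_norm_le_iff_of_nonneg zero_le_one]
    intro i
    have := hx i
    rw [Real.norm_eq_abs, abs_of_pos this.1]
    linarith [this.2]
  exact (measure_mono h).trans_lt measure_closedBall_lt_top |>.ne

theorem shift_int (g : (Fin n → ℝ) → ℂ) (hg : Integrable g) (z : Fin n → ℤ) :
    Integrable (fun x : Fin n → ℝ => g (fun i => x i - z i)) :=
  hg.comp_sub_right (fun i => (z i : ℝ))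

theorem sum_norm (g : (Fin n → ℝ) → ℂ) (hg : Integrable g) :
    Summable fun z : Fin n → ℤ => ∫ x in COEF_cube n, ‖g (fun i => x i - z i)‖ := by
  have h1 := (COEF_unfold n (fun x => ((‖g x‖ : ℝ) : ℂ)) hg.norm.ofReal).summable.norm
  refine h1.congr fun z => ?_
  rw [integral_complex_ofReal, Complex.norm_real, Real.norm_of_nonneg]
  exact integral_nonneg fun x => norm_nonneg _

theorem per_test (g : (Fin n → ℝ) → ℂ) (hg : Integrable g)
    (h : ∀ y : Fin n → ℤ, y ≠ 0 → ∫ x, g x * ch (∑ i, (y i : ℝ) * x i) = 0)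
    (φ : (Fin n → ℝ) → ℝ) (hφ : Continuous φ) (hφc : HasCompactSupport φ)
    (hφs : tsupport φ ⊆ ocube n) :
    ∫ x in COEF_cube n, (∑' z : Fin n → ℤ, g (fun i => x i - z i)) * (φ x : ℂ) =
      (∫ x, g x) * ∫ x, (φ x : ℂ) := by
  have hFc : Continuous (fun x => (φ x : ℂ)) := Complex.continuous_ofReal.comp hφ
  have hFs : HasCompactSupport (fun x => (φ x : ℂ)) :=
    hφc.comp_left (g := fun t : ℝ => (t : ℂ)) Complex.ofReal_zero
  obtain ⟨Φ, hΦ⟩ := LIFT_holds n (fun x => (φ x : ℂ)) hFc hFs
  have hco := COEF_holds n (fun x => (φ x : ℂ)) hFc hFs Φ hΦ 0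
  have h0 : ∀ x, x ∉ ocube n → φ x = 0 := fun x hx => by
    by_contra hne
    exact hx (hφs (subset_tsupport φ hne))
  have hv : ∀ x ∈ COEF_cube n, Φ (pj x) = (φ x : ℂ) := by
    intro x hx
    show Φ (fun i => (x i : UnitAddCircle)) = _
    rw [hΦ, tsum_eq_single 0]
    · simp
    · intro z hz
      rw [h0, Complex.ofReal_zero]
      intro hmem
      apply hz
      funext i
      have h1 := hmem i (mem_univ i)
      have h2 := hx i
      rw [mem_Ioo] at h1
      rw [mem_Ioc] at h2
      have h3 : (z i : ℝ) < 1 := by linarith [h1.1, h2.2]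
      have h4 : (-1 : ℝ) < z i := by linarith [h1.2, h2.1]
      have h5 : z i < 1 := by exact_mod_cast h3
      have h6 : -1 < z i := by exact_mod_cast h4
      show z i = 0
      omega
  have hm : ∫ t, Φ t = ∫ x, (φ x : ℂ) := by
    have h1 : UnitAddTorus.mFourierCoeff Φ 0 = ∫ t, Φ t := by
      unfold UnitAddTorus.mFourierCoeff
      simp only [neg_zero, UnitAddTorus.mFourier_zero, ContinuousMap.one_apply, one_smul]
      congr 1
      show Measure.pi _ = Measure.pi _
      congr 1
      funext i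
      rw [AddCircle.volume_eq_smul_haarAddCircle, ENNReal.ofReal_one, one_smul]
      rfl
    rw [← h1, hco]
    congr 1
    funext x
    simp [ch]
  have hu := COEF_unfold n (fun x => g x * Φ (pj x)) (by
    refine hg.mul_bdd (c := ‖Φ‖) ?_ ?_
    · exact (Φ.continuous.comp pj_cont).aestronglyMeasurable
    · exact Eventually.of_forall fun x => Φ.norm_coe_le_norm _)
  rw [int_periodic g hg h Φ, hm] at hu
  obtain ⟨C, hC⟩ : ∃ C, ∀ x, ‖(φ x : ℂ)‖ ≤ C := by
    obtain ⟨C, hC⟩ := hφc.exists_bound_of_continuous hφ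
    exact ⟨C, fun x => by rw [Complex.norm_real]; exact hC x⟩
  have hi : ∀ z : Fin n → ℤ, Integrable (fun x => g (fun i => x i - z i) * (φ x : ℂ))
      (volume.restrict (COEF_cube n)) := by
    intro z
    refine ((shift_int g hg z).mul_bdd (c := C) hFc.aestronglyMeasurable
      (Eventually.of_forall hC)).integrableOn
  have hC0 : 0 ≤ C := (norm_nonneg _).trans (hC 0)
  have hs : Summable fun z : Fin n → ℤ =>
      ∫ x in COEF_cube n, ‖g (fun i => x i - z i) * (φ x : ℂ)‖ := by
    refine Summable.of_nonneg_of_le (fun z => integral_nonneg fun x => norm_nonneg _) (fun z => ?_)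
      ((sum_norm g hg).mul_right C)
    rw [← integral_mul_const]
    refine integral_mono (hi z).norm ((shift_int g hg z).norm.integrableOn.mul_const C) fun x => ?_
    show ‖g (fun i => x i - z i) * (φ x : ℂ)‖ ≤ _
    rw [norm_mul]
    exact mul_le_mul_of_nonneg_left (hC x) (norm_nonneg _)
  have h2 := hasSum_integral_of_summable_integral_norm hi hs
  have h3 : (fun z : Fin n → ℤ => ∫ x in COEF_cube n,
      g (fun i => x i - z i) * Φ (pj fun i => x i - z i)) =
      fun z => ∫ x in COEF_cube n, g (fun i => x i - z i) * (φ x : ℂ) := by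
    funext z
    refine setIntegral_congr_fun (COEF_cube_meas n) fun x hx => ?_
    show g (fun i => x i - z i) * Φ (pj fun i => x i - z i) = _
    rw [pj_sub, hv x hx]
  rw [h3] at hu
  rw [hu.unique h2]
  exact setIntegral_congr_fun (COEF_cube_meas n) fun x hx => tsum_mul_right.symm

/-- **Periodization.** -/
theorem periodize (g : (Fin n → ℝ) → ℂ) (hg : Integrable g)
    (h : ∀ y : Fin n → ℤ, y ≠ 0 → ∫ x, g x * ch (∑ i, (y i : ℝ) * x i) = 0) :
    ∀ᵐ x : Fin n → ℝ, HasSum (fun z : Fin n → ℤ => g (fun i => x i - z i)) (∫ x, g x) := by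
  set G : (Fin n → ℝ) → ℂ := fun x => ∑' z : Fin n → ℤ, g (fun i => x i - z i) with hG
  have hGi : IntegrableOn G (COEF_cube n) :=
    integrable_tsum' (fun z => (shift_int g hg z).integrableOn) (sum_norm g hg)
  have hGs : ∀ᵐ x ∂(volume.restrict (COEF_cube n)),
      Summable fun z : Fin n → ℤ => ‖g (fun i => x i - z i)‖ :=
    ae_summable (fun z => (shift_int g hg z).integrableOn) (sum_norm g hg)
  have hci : IntegrableOn (fun _ : Fin n → ℝ => ∫ x, g x) (COEF_cube n) :=
    integrableOn_const cube_fin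
  have h1 : ∀ᵐ x : Fin n → ℝ, x ∈ ocube n → G x - ∫ x, g x = 0 := by
    refine ocube_open.ae_eq_zero_of_integral_contDiff_smul_eq_zero
      ((hGi.sub hci).mono_set ocube_sub).locallyIntegrableOn ?_
    intro φ hφ hφc hφs
    have hφ' : Continuous φ := hφ.continuous
    have h0 : ∀ x, x ∉ COEF_cube n → φ x = 0 := fun x hx => by
      by_contra hne
      exact hx (ocube_sub (hφs (subset_tsupport φ hne)))
    have h2 := per_test g hg h φ hφ' hφc hφs
    obtain ⟨C, hC⟩ := hφc.exists_bound_of_continuous hφ'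
    have h3 : ∫ x, φ x • (G x - ∫ x, g x) =
        ∫ x in COEF_cube n, φ x • (G x - ∫ x, g x) := by
      rw [setIntegral_eq_integral_of_forall_compl_eq_zero]
      intro x hx
      rw [h0 x hx, zero_smul]
    have hφi : ∫ x, (φ x : ℂ) = ∫ x in COEF_cube n, (φ x : ℂ) := by
      rw [setIntegral_eq_integral_of_forall_compl_eq_zero]
      intro x hx
      rw [h0 x hx, Complex.ofReal_zero]
    have hmeas : AEStronglyMeasurable (fun x => (φ x : ℂ)) (volume.restrict (COEF_cube n)) :=
      (Complex.continuous_ofReal.comp hφ').aestronglyMeasurable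
    have hb : ∀ᵐ x ∂(volume.restrict (COEF_cube n)), ‖(φ x : ℂ)‖ ≤ C :=
      Eventually.of_forall fun x => by rw [Complex.norm_real]; exact hC x
    have h4 : ∀ x, φ x • (G x - ∫ x, g x) = G x * (φ x : ℂ) - (∫ x, g x) * (φ x : ℂ) := by
      intro x
      rw [Complex.real_smul]
      ring
    rw [h3]
    simp only [h4]
    rw [integral_sub (hGi.mul_bdd hmeas hb) (hci.mul_bdd hmeas hb), h2, hφi, integral_const_mul,
      sub_self]
  have h2 : ∀ᵐ x : Fin n → ℝ, x ∈ ocube n →
      HasSum (fun z : Fin n → ℤ => g (fun i => x i - z i)) (∫ x, g x) := by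
    rw [ae_restrict_iff' (COEF_cube_meas n)] at hGs
    filter_upwards [h1, hGs] with x hx hx' hm
    rw [← sub_eq_zero.1 (hx hm)]
    exact (hx' (ocube_sub hm)).of_norm.hasSum
  have h3 : ∀ᵐ x : Fin n → ℝ, ∀ m : Fin n → ℤ, (fun i => x i - m i) ∈ ocube n →
      HasSum (fun z : Fin n → ℤ => g (fun i => x i - m i - z i)) (∫ x, g x) := by
    rw [ae_all_iff]
    intro m
    have hq := (measurePreserving_sub_right (volume : Measure (Fin n → ℝ))
      (fun i => (m i : ℝ))).quasiMeasurePreserving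
    exact hq.ae h2
  have h4 : ∀ᵐ x : Fin n → ℝ, ∀ i, x i ∉ Set.range (fun k : ℤ => (k : ℝ)) := by
    rw [ae_all_iff]
    intro i
    have hq := Measure.quasiMeasurePreserving_eval (fun _ : Fin n => (volume : Measure ℝ)) i
    have h5 : ∀ᵐ t : ℝ, t ∉ Set.range (fun k : ℤ => (k : ℝ)) :=
      (Set.countable_range _).ae_notMem _
    exact hq.ae h5
  filter_upwards [h3, h4] with x hx hx'
  have hm : (fun i => x i - (⌊x i⌋ : ℤ)) ∈ ocube n := by
    intro i _
    have h6 := Int.floor_le (x i)
    have h7 := Int.lt_floor_add_one (x i)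
    refine ⟨?_, by linarith⟩
    rcases h6.lt_or_eq with h8 | h8
    · linarith
    · exact absurd ⟨⌊x i⌋, h8⟩ (hx' i)
  have h5 := hx (fun i => ⌊x i⌋) hm
  have h6 := (Equiv.addLeft (fun i => ⌊x i⌋ : Fin n → ℤ)).hasSum_iff
    (f := fun z : Fin n → ℤ => g (fun i => x i - z i)) (a := ∫ x, g x)
  rw [← h6]
  refine h5.congr_fun ?_ |> id
  intro z
  show g (fun i => x i - (((fun i => ⌊x i⌋) + z : Fin n → ℤ) i : ℤ)) = _
  congr 1
  funext i
  simp only [Pi.add_apply]
  push_cast
  ring

end Pool.Agent.TH789.LT
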