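import Pool.Agent.TH789.LT.Cls
import Pool.Agent.TH789.LT.Per2

set_option autoImplicit false

/-!
Change of variables: from vanishing of the Fourier transform to a lattice tiling.
-/

open MeasureTheory Set Filter Topology

namespace Pool.Agent.TH789.LT

open Pool.Agent.H239R2.Flat

variable {n : ℕ}

theorem lattice_tiling (f : (Fin n → ℝ) → ℂ) (hf : Integrable f)
    (C : (Fin n → ℝ) ≃ₗ[ℝ] (Fin n → ℝ)) (q : ℕ) (hq : 0 < q)
    (h : ∀ y : Fin n → ℤ, y ≠ 0 → ∫ x, f x * E (fun j => (q : ℝ) * y j) (C.symm x) = 0) :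
    ∃ (A : (Fin n → ℝ) ≃ₗ[ℝ] (Fin n → ℝ)) (w : ℂ), ∀ᵐ x : Fin n → ℝ,
      HasSum (fun z : Fin n → ℤ => f (x - A fun i => (z i : ℝ))) w := by
  have hq' : (q : ℝ) ≠ 0 := by positivity
  let A : (Fin n → ℝ) ≃ₗ[ℝ] (Fin n → ℝ) :=
    (LinearEquiv.smulOfNeZero ℝ (Fin n → ℝ) ((q : ℝ)⁻¹) (inv_ne_zero hq')).trans C
  have hAs : ∀ x, A.symm x = (q : ℝ) • C.symm x := by
    intro x
    apply A.injective
    rw [A.apply_symm_apply]
    show x = C ((q : ℝ)⁻¹ • ((q : ℝ) • C.symm x))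
    rw [smul_smul, inv_mul_cancel₀ hq', one_smul, C.apply_symm_apply]
  have hdet : LinearMap.det (A : (Fin n → ℝ) →ₗ[ℝ] (Fin n → ℝ)) ≠ 0 := A.isUnit_det'.ne_zero
  have hdet' : LinearMap.det (A.symm : (Fin n → ℝ) →ₗ[ℝ] (Fin n → ℝ)) ≠ 0 :=
    A.symm.isUnit_det'.ne_zero
  have hmap := Measure.map_linearMap_addHaar_eq_smul_addHaar
    (volume : Measure (Fin n → ℝ)) hdet
  have hme : MeasurableEmbedding (fun u => A u) :=
    A.toContinuousLinearEquiv.toHomeomorph.measurableEmbedding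
  have hmap' : Measure.map (fun u => A u) (volume : Measure (Fin n → ℝ)) =
      ENNReal.ofReal |(LinearMap.det (A : (Fin n → ℝ) →ₗ[ℝ] (Fin n → ℝ)))⁻¹| • volume := hmap
  have hg : Integrable (fun u => f (A u)) := by
    have h1 : Integrable f (Measure.map (fun u => A u) volume) := by
      rw [hmap']
      exact hf.smul_measure ENNReal.ofReal_ne_top
    exact (hme.integrable_map_iff).1 h1
  have hgv : ∀ y : Fin n → ℤ, y ≠ 0 →
      ∫ u, f (A u) * ch (∑ i, (y i : ℝ) * u i) = 0 := by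
    intro y hy
    have h1 := hme.integral_map (μ := volume)
      (fun x => f x * ch (∑ i, (y i : ℝ) * (A.symm x) i))
    simp only [A.symm_apply_apply] at h1
    rw [← h1, hmap', integral_smul_measure]
    have h2 : ∀ x, ch (∑ i, (y i : ℝ) * (A.symm x) i) =
        E (fun j => (q : ℝ) * y j) (C.symm x) := by
      intro x
      unfold E
      congr 1
      refine Finset.sum_congr rfl fun i _ => ?_
      rw [hAs, Pi.smul_apply, smul_eq_mul]
      ring
    simp only [h2]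
    rw [h y hy, smul_zero]
  have hper := periodize (fun u => f (A u)) hg hgv
  refine ⟨A, ∫ u, f (A u), ?_⟩
  have hqm := Measure.LinearMap.quasiMeasurePreserving (volume : Measure (Fin n → ℝ))
    (A.symm : (Fin n → ℝ) →ₗ[ℝ] (Fin n → ℝ)) hdet'
  filter_upwards [hqm.ae hper] with x hx
  refine hx.congr_fun ?_ |> id
  intro z
  show f (x - A fun i => (z i : ℝ)) = f (A fun i => (A.symm x) i - (z i : ℝ))
  congr 1
  have h3 : (fun i => (A.symm x) i - (z i : ℝ)) = A.symm x - fun i => (z i : ℝ) := rfl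
  rw [h3, map_sub, A.apply_symm_apply]

end Pool.Agent.TH789.LT
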