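import Mathlib

set_option autoImplicit false

/-!
Nonvanishing of exponential sums along multiples: if `∑ d_i = 1` then for some `q ≥ 1` the sums
`∑ d_i ∏_k x_{ik}^{q s_k}` do not vanish for any integers `s_k`.
-/

namespace Pool.Agent.TH789.LT

theorem jac_int : IsJacobsonRing ℤ := by
  rw [isJacobsonRing_iff_prime_eq]
  intro P hP
  by_cases h : P = ⊥
  · subst h
    rw [eq_bot_iff]
    intro x hx
    rw [Ideal.mem_jacobson_bot] at hx
    have h1 := hx x
    rw [Int.isUnit_iff] at h1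
    rw [Ideal.mem_bot]
    rcases h1 with h1 | h1
    · have : x * x = 0 := by linarith
      exact mul_self_eq_zero.1 this
    · nlinarith [mul_self_nonneg x]
  · haveI : P.IsMaximal := hP.isMaximal h
    exact Ideal.jacobson_eq_self_of_isMaximal

theorem finite_of_fg (F : Type) [Field F] [Module.Finite ℤ F] : Finite F := by
  obtain ⟨q, hq⟩ := CharP.exists F
  rcases CharP.char_is_prime_or_zero F q with hp | hp
  · haveI : Fact q.Prime := ⟨hp⟩
    let _ : Algebra (ZMod q) F := ZMod.algebra F q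
    haveI : Module.Finite (ZMod q) F := Module.Finite.of_restrictScalars_finite ℤ (ZMod q) F
    exact Module.finite_of_finite (ZMod q)
  · subst hp
    exfalso
    haveI : CharZero F := CharP.charP_to_charZero F
    haveI : Algebra.IsIntegral ℤ F := Algebra.IsIntegral.of_finite ℤ F
    have h1 : IsIntegral ℤ (algebraMap ℚ F (2 : ℚ)⁻¹) := Algebra.IsIntegral.isIntegral _
    have h2 : IsIntegral ℤ ((2 : ℚ)⁻¹) :=
      (isIntegral_algebraMap_iff (algebraMap ℚ F).injective).1 h1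
    obtain ⟨z, hz⟩ := IsIntegrallyClosed.isIntegral_iff.1 h2
    have hz' : (z : ℚ) = (2 : ℚ)⁻¹ := by simpa using hz
    have h3 : (2 * z : ℤ) = 1 := by
      have : ((2 * z : ℤ) : ℚ) = 1 := by
        push_cast
        rw [hz']; norm_num
      exact_mod_cast this
    omega

/-- a finitely generated nonzero commutative ring has a finite nonzero quotient -/
theorem exists_fin_quot (R : Type) [CommRing R] [Nontrivial R] (h : Algebra.FiniteType ℤ R) :
    ∃ m : Ideal R, m ≠ ⊤ ∧ Finite (R ⧸ m) := by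
  obtain ⟨m, hm⟩ := Ideal.exists_maximal R
  refine ⟨m, hm.ne_top, ?_⟩
  let i1 : Field (R ⧸ m) := Ideal.Quotient.field m
  haveI := jac_int
  haveI := h
  haveI : Algebra.FiniteType ℤ (R ⧸ m) :=
    Algebra.FiniteType.of_surjective (Ideal.Quotient.mkₐ ℤ m) (Ideal.Quotient.mkₐ_surjective ℤ m)
  have h2 : Module.Finite ℤ (R ⧸ m) :=
    @finite_of_finite_type_of_isJacobsonRing ℤ (R ⧸ m) _ i1 (Ideal.Quotient.algebra ℤ (I := m)) _
      (inferInstance)
  exact finite_of_fg (R ⧸ m)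

theorem nonvanish {I K : Type} [Fintype I] [Fintype K] (d : I → ℂ)
    (x : I → K → ℂ) (hx : ∀ i k, x i k ≠ 0) :
    ∃ q : ℕ, 0 < q ∧ ∀ (s : K → ℤ) (J : Finset I), ∑ i ∈ J, d i ≠ 0 →
      ∑ i ∈ J, d i * ∏ k, (x i k) ^ ((q : ℤ) * s k) ≠ 0 := by
  classical
  set S : Set ℂ := Set.range d ∪ (Set.range (fun p : I × K => x p.1 p.2) ∪
    (Set.range (fun p : I × K => (x p.1 p.2)⁻¹) ∪
    Set.range (fun J : Finset I => (∑ i ∈ J, d i)⁻¹))) with hS
  have hSf : S.Finite := (Set.finite_range _).union ((Set.finite_range _).union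
    ((Set.finite_range _).union (Set.finite_range _)))
  set R := Algebra.adjoin ℤ S with hR
  have hft : Algebra.FiniteType ℤ R := Algebra.FiniteType.adjoin_of_finite hSf
  obtain ⟨m, hm, hfin⟩ := exists_fin_quot R hft
  have hdR : ∀ i, d i ∈ R := fun i => Algebra.subset_adjoin (Or.inl ⟨i, rfl⟩)
  have hxR : ∀ i k, x i k ∈ R := fun i k => Algebra.subset_adjoin (Or.inr (Or.inl ⟨(i, k), rfl⟩))
  have hyR : ∀ i k, (x i k)⁻¹ ∈ R :=
    fun i k => Algebra.subset_adjoin (Or.inr (Or.inr (Or.inl ⟨(i, k), rfl⟩)))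
  have hJR : ∀ J : Finset I, (∑ i ∈ J, d i)⁻¹ ∈ R :=
    fun J => Algebra.subset_adjoin (Or.inr (Or.inr (Or.inr ⟨J, rfl⟩)))
  let u : I → K → Rˣ := fun i k =>
    ⟨⟨x i k, hxR i k⟩, ⟨(x i k)⁻¹, hyR i k⟩, Subtype.ext (mul_inv_cancel₀ (hx i k)),
      Subtype.ext (inv_mul_cancel₀ (hx i k))⟩
  let π : R →+* R ⧸ m := Ideal.Quotient.mk m
  have : Finite (R ⧸ m)ˣ := inferInstance
  refine ⟨Nat.card (R ⧸ m)ˣ, Nat.card_pos, fun s J hJ h0 => ?_⟩
  set q := Nat.card (R ⧸ m)ˣ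
  let E : R := ∑ i ∈ J, (⟨d i, hdR i⟩ : R) * ∏ k, (((u i k) ^ ((q : ℤ) * s k) : Rˣ) : R)
  have hE : E = 0 := by
    apply Subtype.ext
    have h1 : ((E : R) : ℂ) = ∑ i ∈ J, d i * ∏ k, (x i k) ^ ((q : ℤ) * s k) := by
      have h2 : R.val E = ∑ i ∈ J, d i * ∏ k, (x i k) ^ ((q : ℤ) * s k) := by
        simp only [E, map_sum, map_mul, map_prod]
        refine Finset.sum_congr rfl fun i _ => ?_
        congr 1
        refine Finset.prod_congr rfl fun k _ => ?_
        have h3 : R.val (((u i k) ^ ((q : ℤ) * s k) : Rˣ) : R) =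
            ((Units.map (R.val : R →* ℂ) (u i k) ^ ((q : ℤ) * s k) : ℂˣ) : ℂ) := by
          rw [← map_zpow]
          rfl
        rw [h3, Units.val_zpow_eq_zpow_val]
        rfl
      exact h2
    rw [h1, h0]
    rfl
  set D : R := ∑ i ∈ J, (⟨d i, hdR i⟩ : R) with hD
  have h1 : π E = π D := by
    have h2 : ∀ i k, π ((((u i k) ^ ((q : ℤ) * s k) : Rˣ) : R)) = 1 := by
      intro i k
      have h3 : π (((u i k) ^ ((q : ℤ) * s k) : Rˣ) : R) =
          ((Units.map (π : R →* R ⧸ m) (u i k) ^ ((q : ℤ) * s k) : (R ⧸ m)ˣ) : R ⧸ m) := by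
        rw [← map_zpow]
        rfl
      rw [h3, zpow_mul, zpow_natCast, pow_card_eq_one', one_zpow, Units.val_one]
    simp only [E, D, map_sum, map_mul, map_prod, h2, Finset.prod_const_one, mul_one]
  rw [hE, map_zero] at h1
  have h5 : D * ⟨(∑ i ∈ J, d i)⁻¹, hJR J⟩ = 1 := by
    apply Subtype.ext
    have h4 : R.val (D * ⟨(∑ i ∈ J, d i)⁻¹, hJR J⟩) = (∑ i ∈ J, d i) * (∑ i ∈ J, d i)⁻¹ := by
      rw [map_mul, hD, map_sum]
      rfl
    exact h4.trans (mul_inv_cancel₀ hJ)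
  have h6 : (1 : R ⧸ m) = 0 := by
    rw [← map_one π, ← h5, map_mul, ← h1, zero_mul]
  exact hm ((Ideal.eq_top_iff_one m).2 (Ideal.Quotient.eq_zero_iff_mem.1 (by
    rw [map_one]; exact h6)))

end Pool.Agent.TH789.LT
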