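import Pool.Agent.TH789.LT.Key
import Pool.Agent.TH789.LT.FF

set_option autoImplicit false

/-!
Classes of points in translated lattices, and vanishing of the Fourier transform on a lattice.
-/

open MeasureTheory Set Filter Topology

namespace Pool.Agent.TH789.LT

open Pool.Agent.H239R2.Flat

variable {n : ℕ}

/-- the translated lattice `A ℤⁿ + τ` -/
def Lat (A : (Fin n → ℝ) ≃ₗ[ℝ] (Fin n → ℝ)) (τ : Fin n → ℝ) : Set (Fin n → ℝ) :=
  Set.range fun z : Fin n → ℤ => A (fun i => (z i : ℝ)) + τ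

theorem W_lin (A : (Fin n → ℝ) ≃ₗ[ℝ] (Fin n → ℝ)) (τ : Fin n → ℝ) {ε : ℝ} (hε : 0 < ε) :
    ∃ ε' : ℝ, 0 < ε' ∧ ε' ≤ 1 ∧ ∀ c x : Fin n → ℝ,
      W n ε c (A x + τ) ≤ W n ε' (A.symm (τ + c)) (0 + x) := by
  set K : ℝ := ‖LinearMap.toContinuousLinearMap (A.symm : (Fin n → ℝ) →ₗ[ℝ] (Fin n → ℝ))‖ with hK
  have hK0 : 0 ≤ K := norm_nonneg _
  refine ⟨min 1 (ε / (K + 1)), lt_min one_pos (by positivity), min_le_left _ _, fun c x => ?_⟩
  have hpos : 0 < min 1 (ε / (K + 1)) := lt_min one_pos (by positivity)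
  have h1 : ‖A.symm (A x + τ + c)‖ ≤ K * ‖A x + τ + c‖ :=
    (LinearMap.toContinuousLinearMap (A.symm : (Fin n → ℝ) →ₗ[ℝ] (Fin n → ℝ))).le_opNorm _
  have h2 : 0 + x + A.symm (τ + c) = A.symm (A x + τ + c) := by
    rw [add_assoc (A x), map_add A.symm (A x), A.symm_apply_apply, zero_add]
  have h3 : min 1 (ε / (K + 1)) * K ≤ ε := by
    calc min 1 (ε / (K + 1)) * K ≤ (ε / (K + 1)) * K :=
          mul_le_mul_of_nonneg_right (min_le_right _ _) hK0
      _ ≤ (ε / (K + 1)) * (K + 1) := by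
          apply mul_le_mul_of_nonneg_left (by linarith) (by positivity)
      _ = ε := by field_simp
  have h4 : min 1 (ε / (K + 1)) * ‖A.symm (A x + τ + c)‖ ≤ ε * ‖A x + τ + c‖ := by
    calc min 1 (ε / (K + 1)) * ‖A.symm (A x + τ + c)‖
        ≤ min 1 (ε / (K + 1)) * (K * ‖A x + τ + c‖) := mul_le_mul_of_nonneg_left h1 hpos.le
      _ = (min 1 (ε / (K + 1)) * K) * ‖A x + τ + c‖ := by ring
      _ ≤ _ := mul_le_mul_of_nonneg_right h3 (norm_nonneg _)
  unfold W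
  rw [h2]
  apply inv_anti₀ (by positivity)
  exact pow_le_pow_left₀ (by positivity) (by linarith) _

theorem BD_lat (A : (Fin n → ℝ) ≃ₗ[ℝ] (Fin n → ℝ)) (τ : Fin n → ℝ) {ε : ℝ} (hε : 0 < ε) :
    ∃ B : ℝ, 0 ≤ B ∧ ∀ (κ : Type) (q : κ → Fin n → ℝ) (T : Finset κ) (c : Fin n → ℝ),
      (∀ a ∈ T, q a ∈ Lat A τ) → Set.InjOn q T → ∑ a ∈ T, W n ε c (q a) ≤ B := by
  classical
  obtain ⟨ε', h0, h1, h2⟩ := W_lin A τ hε
  refine ⟨(1 + ε') ^ (n + 1) * ∫ x, W n ε' 0 x,
    mul_nonneg (by positivity) (W_integral_nonneg h0 0), fun κ q T c hq hinj => ?_⟩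
  have hz : ∀ a, ∃ z : Fin n → ℤ, a ∈ T → A (fun i => (z i : ℝ)) + τ = q a := by
    intro a
    by_cases ha : a ∈ T
    · obtain ⟨z, hz⟩ := hq a ha
      exact ⟨z, fun _ => hz⟩
    · exact ⟨0, fun h => absurd h ha⟩
  choose z hz using hz
  have hzi : Set.InjOn z T := by
    intro a ha b hb hab
    apply hinj ha hb
    rw [← hz a ha, ← hz b hb, hab]
  calc ∑ a ∈ T, W n ε c (q a)
      ≤ ∑ a ∈ T, W n ε' (A.symm (τ + c)) (0 + fun i => ((z a) i : ℝ)) := by
        refine Finset.sum_le_sum fun a ha => ?_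
        rw [← hz a ha]
        exact h2 c _
    _ = ∑ k ∈ T.image z, W n ε' (A.symm (τ + c)) (0 + fun i => (k i : ℝ)) := by
        rw [Finset.sum_image (fun a ha b hb hab => hzi ha hb hab)]
    _ ≤ _ := W_lat h0 h1 _ _ _

/-- the points of a finite family of sets -/
abbrev pts {I : Type} (P : I → Set (Fin n → ℝ)) : (Σ i, P i) → Fin n → ℝ := fun a => a.2.1

theorem BD_pts {I : Type} [Fintype I] (P : I → Set (Fin n → ℝ))
    (A : I → (Fin n → ℝ) ≃ₗ[ℝ] (Fin n → ℝ)) (τ : I → Fin n → ℝ)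
    (hP : ∀ i, P i ⊆ Lat (A i) (τ i)) : BD (pts P) := by
  classical
  intro ε hε _
  choose B hB0 hB using fun i => BD_lat (A i) (τ i) hε
  refine ⟨∑ i, B i, fun c T => ?_⟩
  rw [← Finset.sum_fiberwise T (fun a => a.1)]
  refine Finset.sum_le_sum fun i _ => ?_
  refine hB i _ _ _ c ?_ ?_
  · intro a ha
    obtain ⟨j, x⟩ := a
    have hj : j = i := (Finset.mem_filter.1 ha).2
    subst hj
    exact hP j x.2
  · intro a ha b hb hab
    obtain ⟨j, x⟩ := a
    obtain ⟨l, y⟩ := b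
    have hj : j = i := (Finset.mem_filter.1 (Finset.mem_coe.1 ha)).2
    have hl : l = i := (Finset.mem_filter.1 (Finset.mem_coe.1 hb)).2
    subst hj
    subst hl
    have : x = y := Subtype.ext hab
    rw [this]

theorem lat_countable (A : (Fin n → ℝ) ≃ₗ[ℝ] (Fin n → ℝ)) (τ : Fin n → ℝ) :
    (Lat A τ).Countable := Set.countable_range _

/-- the dual vector: `E (dual C y) x = E y (C⁻¹ x)` -/
noncomputable def dual (C : (Fin n → ℝ) ≃ₗ[ℝ] (Fin n → ℝ)) (y : Fin n → ℝ) : Fin n → ℝ :=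
  fun i => ∑ j, y j * C.symm (fun l => if i = l then 1 else 0) j

theorem dual_sum (C : (Fin n → ℝ) ≃ₗ[ℝ] (Fin n → ℝ)) (y x : Fin n → ℝ) :
    ∑ i, dual C y i * x i = ∑ j, y j * C.symm x j := by
  have h1 : C.symm x = ∑ i, x i • C.symm (fun l => if i = l then 1 else 0) := by
    have := LinearMap.pi_apply_eq_sum_univ (C.symm : (Fin n → ℝ) →ₗ[ℝ] (Fin n → ℝ)) x
    exact this
  rw [h1]
  simp only [dual, Finset.sum_apply, Pi.smul_apply, smul_eq_mul, Finset.sum_mul, Finset.mul_sum]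
  rw [Finset.sum_comm]
  refine Finset.sum_congr rfl fun j _ => Finset.sum_congr rfl fun i _ => ?_
  ring

theorem E_dual (C : (Fin n → ℝ) ≃ₗ[ℝ] (Fin n → ℝ)) (y x : Fin n → ℝ) :
    E (dual C y) x = E y (C.symm x) := by
  unfold E
  rw [dual_sum]

theorem dual_ne (C : (Fin n → ℝ) ≃ₗ[ℝ] (Fin n → ℝ)) (y : Fin n → ℝ) (hy : y ≠ 0) :
    dual C y ≠ 0 := by
  intro h
  apply hy
  have h1 := dual_sum C y (C y)
  rw [h, C.symm_apply_apply] at h1
  simp only [Pi.zero_apply, zero_mul, Finset.sum_const_zero] at h1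
  funext j
  have h2 := (Finset.sum_eq_zero_iff_of_nonneg (fun j _ => mul_self_nonneg (y j))).1 h1.symm j
    (Finset.mem_univ j)
  exact mul_self_eq_zero.1 h2

/-- classes of full lattices: outside the dual lattice the mean tends to `0` -/
theorem class_zero {I : Type} [Fintype I] (P : I → Set (Fin n → ℝ)) [Countable (Σ i, P i)]
    (h : BD (pts P)) (c : ℕ → Fin n → ℝ)
    (hN : ∀ k : ℕ, 0 < Nw (pts P) (1 / ((k : ℝ) + 1)) (c k))
    (hmax : ∀ (k : ℕ) c', Nw (pts P) (1 / ((k : ℝ) + 1)) c' ≤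
      2 * Nw (pts P) (1 / ((k : ℝ) + 1)) (c k))
    (i : I) (A : (Fin n → ℝ) ≃ₗ[ℝ] (Fin n → ℝ)) (τ : Fin n → ℝ) (hP : P i = Lat A τ)
    (s : Fin n → ℝ) (z : Fin n → ℤ) (hz : E s (A fun i => (z i : ℝ)) ≠ 1) :
    Tendsto (fun k : ℕ => (∑' a : P i, (W n (1 / ((k : ℝ) + 1)) (c k) a : ℂ) * E s a) /
        (Nw (pts P) (1 / ((k : ℝ) + 1)) (c k) : ℂ)) atTop (𝓝 0) := by
  set v : Fin n → ℝ := A fun i => (z i : ℝ) with hv
  have hd : 0 < ‖E s v - 1‖ := norm_pos_iff.2 (sub_ne_zero.2 hz)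
  have hlim : Tendsto (fun k : ℕ => 3 * ((1 + 1 / ((k : ℝ) + 1) * ‖v‖) ^ (n + 1) - 1) /
      ‖E s v - 1‖) atTop (𝓝 0) := by
    have := ((rho_tendsto v).const_mul 3).div_const ‖E s v - 1‖
    simpa using this
  refine squeeze_zero_norm (fun k => ?_) hlim
  set ε : ℝ := 1 / ((k : ℝ) + 1) with hε'
  have hε : 0 < ε := by positivity
  have hε1 : ε ≤ 1 := by
    rw [hε', div_le_one (by positivity)]
    have : (0 : ℝ) ≤ k := Nat.cast_nonneg k
    linarith
  have hNk := hN k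
  rw [← hε'] at hNk
  have hm : ∀ c', Nw (pts P) ε c' ≤ 2 * Nw (pts P) ε (c k) := hmax k
  have hmem : ∀ a, a ∈ P i ↔ a + v ∈ P i := by
    intro a
    rw [hP]
    constructor
    · rintro ⟨y, rfl⟩
      refine ⟨y + z, ?_⟩
      show A (fun i => (((y + z) i : ℤ) : ℝ)) + τ = A (fun i => (y i : ℝ)) + τ + v
      rw [hv, add_right_comm, ← map_add]
      congr 2
      funext l
      simp
    · rintro ⟨y, hy⟩
      refine ⟨y - z, ?_⟩
      have hy' : A (fun i => (y i : ℝ)) + τ = a + v := hy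
      show A (fun i => (((y - z) i : ℤ) : ℝ)) + τ = a
      have h1 : (fun i => (((y - z) i : ℤ) : ℝ)) = (fun i => (y i : ℝ)) - fun i => (z i : ℝ) := by
        funext l
        simp
      rw [h1, map_sub, ← hv]
      have : A (fun i => (y i : ℝ)) = a + v - τ := by rw [← hy']; abel
      rw [this]
      abel
  let e : P i ≃ P i := (Equiv.addRight v).subtypeEquiv hmem
  have hsum0 : ∀ c', Summable fun a : P i => W n ε c' (a : Fin n → ℝ) := fun c' =>
    (h.summable hε hε1 c').sigma_factor i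
  have hsumv : Summable fun a : P i => W n ε (c k) ((a : Fin n → ℝ) + v) := by
    have := hsum0 (c k + v)
    refine this.congr fun a => ?_
    rw [W_center]
  have hX : Summable fun a : P i => (W n ε (c k) a : ℂ) * E s a := by
    refine Summable.of_norm ((hsum0 (c k)).congr fun a => ?_)
    rw [norm_mul, E_norm, mul_one, Complex.norm_real, Real.norm_of_nonneg (W_pos hε _ _).le]
  have hY : Summable fun a : P i => (W n ε (c k) ((a : Fin n → ℝ) + v) : ℂ) * E s a := by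
    refine Summable.of_norm (hsumv.congr fun a => ?_)
    rw [norm_mul, E_norm, mul_one, Complex.norm_real, Real.norm_of_nonneg (W_pos hε _ _).le]
  set X : ℂ := ∑' a : P i, (W n ε (c k) a : ℂ) * E s a
  set Y : ℂ := ∑' a : P i, (W n ε (c k) ((a : Fin n → ℝ) + v) : ℂ) * E s a
  have hXY : X = E s v * Y := by
    have h1 : X = ∑' a : P i, (W n ε (c k) (e a) : ℂ) * E s (e a) :=
      (e.tsum_eq (fun a : P i => (W n ε (c k) a : ℂ) * E s a)).symm
    rw [h1, ← tsum_mul_left]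
    refine tsum_congr fun a => ?_
    show (W n ε (c k) ((a : Fin n → ℝ) + v) : ℂ) * E s ((a : Fin n → ℝ) + v) = _
    rw [E_add]
    ring
  set N : ℝ := Nw (pts P) ε (c k)
  set ρ : ℝ := (1 + ε * ‖v‖) ^ (n + 1) - 1
  have hdiff : ‖X - Y‖ ≤ N * (3 * ρ) := by
    have h1 : X - Y = ∑' a : P i,
        ((W n ε (c k) a : ℂ) * E s a - (W n ε (c k) ((a : Fin n → ℝ) + v) : ℂ) * E s a) :=
      (hX.tsum_sub hY).symm
    have h2 := (hX.sub hY).hasSum.norm
    rw [← h1] at h2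
    refine le_of_tendsto h2 (Eventually.of_forall fun T => ?_)
    calc ‖∑ a ∈ T, ((W n ε (c k) a : ℂ) * E s a -
          (W n ε (c k) ((a : Fin n → ℝ) + v) : ℂ) * E s a)‖
        ≤ ∑ a ∈ T, |W n ε (c k) ((a : Fin n → ℝ) + v) - W n ε (c k) a| := by
          refine norm_sum_le_of_le _ fun a _ => le_of_eq ?_
          rw [← sub_mul, norm_mul, E_norm, mul_one, ← Complex.ofReal_sub, Complex.norm_real,
            Real.norm_eq_abs, abs_sub_comm]
      _ = ∑ a ∈ T.map (Function.Embedding.sigmaMk i),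
            |W n ε (c k) (pts P a + v) - W n ε (c k) (pts P a)| := by
          rw [Finset.sum_map]
          rfl
      _ ≤ N * (3 * min 1 ρ) := diff_le h hε hε1 (c k) hm v _
      _ ≤ N * (3 * ρ) := by
          apply mul_le_mul_of_nonneg_left _ hNk.le
          have := min_le_right (1 : ℝ) ρ
          linarith
  have h5 : X - Y = (E s v - 1) * Y := by rw [hXY]; ring
  have h6 : ‖X‖ = ‖Y‖ := by rw [hXY, norm_mul, E_norm, one_mul]
  rw [h5, norm_mul, ← h6] at hdiff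
  rw [norm_div, Complex.norm_real, Real.norm_of_nonneg hNk.le, div_le_div_iff₀ hNk hd]
  linarith

end Pool.Agent.TH789.LT
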