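import Pool.Agent.TH789.LT.Key

set_option autoImplicit false

/-!
Weighted counting of points by counting in cubes.
-/

open MeasureTheory Set Filter Topology Metric
open scoped ENNReal

namespace Pool.Agent.TH789.LT

variable {n : ℕ}

theorem cnt_eq (S : Set (Fin n → ℝ)) (r : ℝ) (x : Fin n → ℝ) :
    ∑' a : S, (ball (a : Fin n → ℝ) r).indicator (fun _ => (1 : ℝ≥0∞)) x =
      ((S ∩ ball x r).encard : ℝ≥0∞) := by
  rw [← ENNReal.tsum_set_one, tsum_subtype (S ∩ ball x r) (fun _ => (1 : ℝ≥0∞)),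
    tsum_subtype S (fun a => (ball a r).indicator (fun _ => (1 : ℝ≥0∞)) x)]
  refine tsum_congr fun a => ?_
  by_cases h1 : a ∈ S
  · by_cases h2 : a ∈ ball x r
    · rw [indicator_of_mem h1, indicator_of_mem (mem_ball_comm.1 h2),
        indicator_of_mem (show a ∈ S ∩ ball x r from ⟨h1, h2⟩)]
    · rw [indicator_of_mem h1, indicator_of_notMem (fun h => h2 (mem_ball_comm.1 h)),
        indicator_of_notMem (fun h => h2 h.2)]
  · rw [indicator_of_notMem h1, indicator_of_notMem (fun h => h1 h.1)]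

theorem mass_eq (S : Set (Fin n → ℝ)) [Countable S] (r : ℝ) {ε : ℝ} (hε : 0 < ε)
    (c : Fin n → ℝ) :
    ∫⁻ x, ENNReal.ofReal (W n ε c x) * ((S ∩ ball x r).encard : ℝ≥0∞) =
      ∑' a : S, ∫⁻ x in ball (a : Fin n → ℝ) r, ENNReal.ofReal (W n ε c x) := by
  have hm : Measurable fun x => ENNReal.ofReal (W n ε c x) :=
    (W_cont hε c).measurable.ennreal_ofReal
  have h1 : ∀ x, ENNReal.ofReal (W n ε c x) * ((S ∩ ball x r).encard : ℝ≥0∞) =
      ∑' a : S, (ball (a : Fin n → ℝ) r).indicator (fun x => ENNReal.ofReal (W n ε c x)) x := by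
    intro x
    rw [← cnt_eq, ← ENNReal.tsum_mul_left]
    refine tsum_congr fun a => ?_
    by_cases h : x ∈ ball (a : Fin n → ℝ) r
    · rw [indicator_of_mem h, indicator_of_mem h, mul_one]
    · rw [indicator_of_notMem h, indicator_of_notMem h, mul_zero]
  simp only [h1]
  rw [lintegral_tsum fun a => (hm.indicator measurableSet_ball).aemeasurable]
  exact tsum_congr fun a => lintegral_indicator measurableSet_ball _

theorem term_up {ε r : ℝ} (hε : 0 < ε) (hr : 0 < r) (c a : Fin n → ℝ) :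
    ENNReal.ofReal (W n ε c a) * volume (ball (0 : Fin n → ℝ) r) ≤
      ENNReal.ofReal ((1 + ε * r) ^ (n + 1)) * ∫⁻ x in ball a r, ENNReal.ofReal (W n ε c x) := by
  have hm : Measurable fun x => ENNReal.ofReal (W n ε c x) :=
    (W_cont hε c).measurable.ennreal_ofReal
  rw [← lintegral_const_mul _ hm, ← Measure.addHaar_ball_center (volume : Measure (Fin n → ℝ)) a r,
    ← setLIntegral_const]
  refine setLIntegral_mono' measurableSet_ball fun x hx => ?_
  rw [← ENNReal.ofReal_mul (by positivity)]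
  refine ENNReal.ofReal_le_ofReal ?_
  have h1 := W_shift' hε c a (x - a)
  rw [add_sub_cancel] at h1
  refine h1.trans (mul_le_mul_of_nonneg_right ?_ (W_pos hε _ _).le)
  apply pow_le_pow_left₀ (by positivity)
  have h2 : ‖x - a‖ ≤ r := by
    rw [← dist_eq_norm]; exact (mem_ball.1 hx).le
  have := mul_le_mul_of_nonneg_left h2 hε.le
  linarith

theorem term_low {ε r : ℝ} (hε : 0 < ε) (hr : 0 < r) (c a : Fin n → ℝ) :
    ∫⁻ x in ball a r, ENNReal.ofReal (W n ε c x) ≤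
      ENNReal.ofReal ((1 + ε * r) ^ (n + 1)) *
        (ENNReal.ofReal (W n ε c a) * volume (ball (0 : Fin n → ℝ) r)) := by
  rw [← Measure.addHaar_ball_center (volume : Measure (Fin n → ℝ)) a r, ← mul_assoc,
    ← setLIntegral_const]
  refine setLIntegral_mono' measurableSet_ball fun x hx => ?_
  rw [← ENNReal.ofReal_mul (by positivity)]
  refine ENNReal.ofReal_le_ofReal ?_
  have h1 := W_shift hε c a (x - a)
  rw [add_sub_cancel] at h1
  refine h1.trans (mul_le_mul_of_nonneg_right ?_ (W_pos hε _ _).le)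
  apply pow_le_pow_left₀ (by positivity)
  have h2 : ‖x - a‖ ≤ r := by
    rw [← dist_eq_norm]; exact (mem_ball.1 hx).le
  have := mul_le_mul_of_nonneg_left h2 hε.le
  linarith

/-- the weighted count -/
noncomputable def wc (n : ℕ) (S : Set (Fin n → ℝ)) (ε : ℝ) (c : Fin n → ℝ) : ℝ≥0∞ :=
  ∑' a : S, ENNReal.ofReal (W n ε c a)

theorem wc_up (S : Set (Fin n → ℝ)) [Countable S] {ε r : ℝ} (hε : 0 < ε) (hr : 0 < r)
    (c : Fin n → ℝ) :
    wc n S ε c * volume (ball (0 : Fin n → ℝ) r) ≤ ENNReal.ofReal ((1 + ε * r) ^ (n + 1)) *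
      ∫⁻ x, ENNReal.ofReal (W n ε c x) * ((S ∩ ball x r).encard : ℝ≥0∞) := by
  rw [mass_eq S r hε c, wc, ← ENNReal.tsum_mul_right, ← ENNReal.tsum_mul_left]
  exact ENNReal.tsum_le_tsum fun a => term_up hε hr c a

theorem wc_low (S : Set (Fin n → ℝ)) [Countable S] {ε r : ℝ} (hε : 0 < ε) (hr : 0 < r)
    (c : Fin n → ℝ) :
    ∫⁻ x, ENNReal.ofReal (W n ε c x) * ((S ∩ ball x r).encard : ℝ≥0∞) ≤
      ENNReal.ofReal ((1 + ε * r) ^ (n + 1)) *
        (wc n S ε c * volume (ball (0 : Fin n → ℝ) r)) := by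
  rw [mass_eq S r hε c, wc, ← ENNReal.tsum_mul_right, ← ENNReal.tsum_mul_left]
  exact ENNReal.tsum_le_tsum fun a => term_low hε hr c a

/-- comparison of weighted counts -/
theorem wc_compare (S Q : Set (Fin n → ℝ)) [Countable S] [Countable Q] {ε r : ℝ} (hε : 0 < ε)
    (hr : 0 < r) (c : Fin n → ℝ) (θ : ℝ≥0∞)
    (h : ∀ x, ((Q ∩ ball x r).encard : ℝ≥0∞) ≤ θ * ((S ∩ ball x r).encard : ℝ≥0∞)) (hθ : θ ≠ ⊤) :
    wc n Q ε c ≤ ENNReal.ofReal ((1 + ε * r) ^ (n + 1)) ^ 2 * θ * wc n S ε c := by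
  have hV0 : volume (ball (0 : Fin n → ℝ) r) ≠ 0 := (measure_ball_pos _ _ hr).ne'
  have hVt : volume (ball (0 : Fin n → ℝ) r) ≠ ⊤ := measure_ball_lt_top.ne
  have h1 := wc_up Q hε hr c
  have h2 := wc_low S hε hr c
  have h3 : ∫⁻ x, ENNReal.ofReal (W n ε c x) * ((Q ∩ ball x r).encard : ℝ≥0∞) ≤
      θ * ∫⁻ x, ENNReal.ofReal (W n ε c x) * ((S ∩ ball x r).encard : ℝ≥0∞) := by
    rw [← lintegral_const_mul' _ _ hθ]
    refine lintegral_mono fun x => ?_
    calc ENNReal.ofReal (W n ε c x) * ((Q ∩ ball x r).encard : ℝ≥0∞)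
        ≤ ENNReal.ofReal (W n ε c x) * (θ * ((S ∩ ball x r).encard : ℝ≥0∞)) :=
          mul_le_mul_right (h x) _
      _ = _ := by ring
  set ρ := ENNReal.ofReal ((1 + ε * r) ^ (n + 1))
  set V := volume (ball (0 : Fin n → ℝ) r)
  have h4 : wc n Q ε c * V ≤ (ρ ^ 2 * θ * wc n S ε c) * V := by
    calc wc n Q ε c * V ≤ ρ * ∫⁻ x, ENNReal.ofReal (W n ε c x) *
          ((Q ∩ ball x r).encard : ℝ≥0∞) := h1
      _ ≤ ρ * (θ * ∫⁻ x, ENNReal.ofReal (W n ε c x) * ((S ∩ ball x r).encard : ℝ≥0∞)) :=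
          mul_le_mul_right h3 _
      _ ≤ ρ * (θ * (ρ * (wc n S ε c * V))) := mul_le_mul_right (mul_le_mul_right h2 _) _
      _ = _ := by ring
  exact (ENNReal.mul_le_mul_iff_left hV0 hVt).1 h4

/-- sets of bounded density -/
theorem bd_countable (S : Set (Fin n → ℝ)) (M : ℕ)
    (hM : ∀ x, (S ∩ ball x 1).encard ≤ M) : S.Countable := by
  have h1 : S ⊆ ⋃ k : ℕ, S ∩ ball (TopologicalSpace.denseSeq (Fin n → ℝ) k) 1 := by
    intro x hx
    obtain ⟨k, hk⟩ := (TopologicalSpace.denseRange_denseSeq (Fin n → ℝ)).exists_dist_lt x one_pos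
    exact mem_iUnion.2 ⟨k, hx, mem_ball.2 hk⟩
  refine (countable_iUnion fun k => ?_).mono h1
  apply Set.Finite.countable
  apply Set.finite_of_encard_le_coe (k := M)
  exact hM _

theorem bd_BD (S : Set (Fin n → ℝ)) [Countable S] (M : ℕ)
    (hM : ∀ x, (S ∩ ball x 1).encard ≤ M) : BD (fun a : S => (a : Fin n → ℝ)) := by
  intro ε hε hε1
  have hVt : volume (ball (0 : Fin n → ℝ) 1) ≠ ⊤ := measure_ball_lt_top.ne
  have hV0 : volume (ball (0 : Fin n → ℝ) 1) ≠ 0 := (measure_ball_pos _ _ one_pos).ne'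
  set ρ := ENNReal.ofReal ((1 + ε * 1) ^ (n + 1))
  set V := volume (ball (0 : Fin n → ℝ) 1)
  have hI : ∀ c, ∫⁻ x, ENNReal.ofReal (W n ε c x) = ENNReal.ofReal (∫ x, W n ε 0 x) := by
    intro c
    rw [← W_integral ε c, ofReal_integral_eq_lintegral_ofReal (W_int hε hε1 c)
      (Eventually.of_forall fun x => (W_pos hε c x).le)]
  have hle : ∀ c, wc n S ε c * V ≤ ρ * ((M : ℝ≥0∞) * ENNReal.ofReal (∫ x, W n ε 0 x)) := by
    intro c
    refine (wc_up S hε one_pos c).trans (mul_le_mul_right ?_ _)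
    rw [← hI c, ← lintegral_const_mul' _ _ (ENNReal.natCast_ne_top M)]
    refine lintegral_mono fun x => ?_
    rw [mul_comm]
    refine mul_le_mul_left ?_ _
    have := hM x
    calc ((S ∩ ball x 1).encard : ℝ≥0∞) ≤ ((M : ℕ∞) : ℝ≥0∞) := by
          exact_mod_cast this
      _ = _ := by simp
  set K : ℝ≥0∞ := ρ * ((M : ℝ≥0∞) * ENNReal.ofReal (∫ x, W n ε 0 x)) / V with hK
  have hKt : K ≠ ⊤ := by
    rw [hK]
    refine ENNReal.div_ne_top ?_ hV0
    exact ENNReal.mul_ne_top ENNReal.ofReal_ne_top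
      (ENNReal.mul_ne_top (ENNReal.natCast_ne_top M) ENNReal.ofReal_ne_top)
  refine ⟨K.toReal, fun c T => ?_⟩
  have h1 : wc n S ε c ≤ K := (ENNReal.le_div_iff_mul_le (Or.inl hV0) (Or.inl hVt)).2 (hle c)
  have h2 : ENNReal.ofReal (∑ a ∈ T, W n ε c (a : Fin n → ℝ)) ≤ K := by
    rw [ENNReal.ofReal_sum_of_nonneg fun a _ => (W_pos hε c _).le]
    exact (ENNReal.sum_le_tsum T).trans h1
  exact (ENNReal.ofReal_le_iff_le_toReal hKt).1 h2

end Pool.Agent.TH789.LT
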