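import Pool.Agent.H239R2.Flat.COEF
import Pool.Agent.H239R2.Flat.LIFT

set_option autoImplicit false

/-!
Periodization: if the Fourier transform of an integrable function vanishes at all nonzero integer
points, then its periodization is constant almost everywhere.
-/

open MeasureTheory Set Filter Topology

namespace Pool.Agent.TH789.LT

open Pool.Agent.H239R2.Flat

section gen

variable {α ι E : Type*} {_ : MeasurableSpace α} {μ : Measure α} [Countable ι]
  [NormedAddCommGroup E] [NormedSpace ℝ E] [CompleteSpace E]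

theorem tsum_lint_ne_top {F : ι → α → E} (hi : ∀ i, Integrable (F i) μ)
    (hs : Summable fun i => ∫ a, ‖F i a‖ ∂μ) : ∑' i, ∫⁻ a, ‖F i a‖ₑ ∂μ ≠ ⊤ := by
  have (i : ι) : ∫⁻ a, ‖F i a‖ₑ ∂μ = ENNReal.ofReal (∫ a, ‖F i a‖ ∂μ) := by
    rw [ofReal_integral_norm_eq_lintegral_enorm (hi i)]
  simp_rw [this]
  rw [← ENNReal.ofReal_tsum_of_nonneg (fun i => integral_nonneg fun a => norm_nonneg _) hs]
  exact ENNReal.ofReal_ne_top

theorem ae_summable {F : ι → α → E} (hi : ∀ i, Integrable (F i) μ)
    (hs : Summable fun i => ∫ a, ‖F i a‖ ∂μ) : ∀ᵐ a ∂μ, Summable fun i => ‖F i a‖ := by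
  apply summable_norm_of_tsum_eLpNorm_ne_top (p := 1) le_rfl (fun i => (hi i).1)
  simp only [eLpNorm_one_eq_lintegral_enorm]
  exact tsum_lint_ne_top hi hs

theorem integrable_tsum' {F : ι → α → E} (hi : ∀ i, Integrable (F i) μ)
    (hs : Summable fun i => ∫ a, ‖F i a‖ ∂μ) : Integrable (fun a => ∑' i, F i a) μ := by
  have h1 := ae_summable hi hs
  refine ⟨?_, ?_⟩
  · refine aestronglyMeasurable_of_tendsto_ae (u := (atTop : Filter (Finset ι)))
      (f := fun s : Finset ι => fun a => ∑ i ∈ s, F i a) ?_ ?_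
    · intro s
      exact Finset.aestronglyMeasurable_fun_sum s fun i _ => (hi i).1
    · filter_upwards [h1] with a ha
      exact ha.of_norm.hasSum
  · rw [hasFiniteIntegral_iff_enorm]
    calc ∫⁻ a, ‖∑' i, F i a‖ₑ ∂μ ≤ ∫⁻ a, ∑' i, ‖F i a‖ₑ ∂μ :=
          lintegral_mono fun a => enorm_tsum_le_tsum_enorm
      _ = ∑' i, ∫⁻ a, ‖F i a‖ₑ ∂μ := lintegral_tsum fun i => (hi i).1.enorm
      _ < ⊤ := (tsum_lint_ne_top hi hs).lt_top

end gen

variable {n : ℕ}

/-- the covering map of the torus -/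
def pj (x : Fin n → ℝ) : UnitAddTorus (Fin n) := fun i => (x i : UnitAddCircle)

theorem pj_cont : Continuous (pj : (Fin n → ℝ) → UnitAddTorus (Fin n)) := by
  unfold pj
  fun_prop

theorem pj_sub (x : Fin n → ℝ) (z : Fin n → ℤ) :
    pj (fun i => x i - z i) = pj x := by
  funext i
  show ((x i - z i : ℝ) : UnitAddCircle) = (x i : UnitAddCircle)
  rw [AddCircle.coe_sub, sub_eq_self, AddCircle.coe_eq_zero_iff]
  exact ⟨z i, by simp⟩

theorem mF_add (k : Fin n → ℤ) (x y : UnitAddTorus (Fin n)) :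
    UnitAddTorus.mFourier k (x + y) = UnitAddTorus.mFourier k x * UnitAddTorus.mFourier k y := by
  simp only [UnitAddTorus.mFourier, ContinuousMap.coe_mk, Pi.add_apply, ← Finset.prod_mul_distrib]
  refine Finset.prod_congr rfl fun i _ => ?_
  simp [fourier_apply, smul_add, AddCircle.toCircle_add]

theorem mF_norm (k : Fin n → ℤ) (x : UnitAddTorus (Fin n)) :
    ‖UnitAddTorus.mFourier k x‖ = 1 := by
  simp only [UnitAddTorus.mFourier, fourier_apply, ContinuousMap.coe_mk, norm_prod,
    Circle.norm_coe, Finset.prod_const_one]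

theorem mF_pj (y : Fin n → ℤ) (x : Fin n → ℝ) :
    UnitAddTorus.mFourier y (pj x) = ch (∑ i, (y i : ℝ) * x i) := by
  have h := COEF_mFourier (-y) x
  rw [neg_neg] at h
  show UnitAddTorus.mFourier y (fun i => (x i : UnitAddCircle)) = _
  rw [h]
  congr 1
  rw [← Finset.sum_neg_distrib]
  refine Finset.sum_congr rfl fun i _ => ?_
  rw [Pi.neg_apply]
  push_cast
  ring

theorem int_mF (k : Fin n → ℤ) (hk : k ≠ 0) :
    ∫ t : UnitAddTorus (Fin n), UnitAddTorus.mFourier k t = 0 := by
  obtain ⟨j, hj⟩ : ∃ j, k j ≠ 0 := by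
    by_contra hcon
    push Not at hcon
    exact hk (funext hcon)
  have hj' : (k j : ℝ) ≠ 0 := by exact_mod_cast hj
  set x : Fin n → ℝ := fun i => if i = j then 1 / (2 * (k j : ℝ)) else 0 with hx
  have h1 : UnitAddTorus.mFourier k (pj x) = -1 := by
    rw [mF_pj]
    have h2 : ∑ i, (k i : ℝ) * x i = 1 / 2 := by
      rw [Finset.sum_eq_single j]
      · rw [hx]
        simp only [if_true]
        field_simp
      · intro b _ hb
        rw [hx]
        simp [hb]
      · intro h
        exact absurd (Finset.mem_univ j) h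
    rw [h2]
    unfold ch
    rw [← Complex.exp_pi_mul_I]
    congr 1
    push_cast
    ring
  have h3 : ∫ t : UnitAddTorus (Fin n), UnitAddTorus.mFourier k (t + pj x) =
      ∫ t : UnitAddTorus (Fin n), UnitAddTorus.mFourier k t :=
    integral_add_right_eq_self (fun t => UnitAddTorus.mFourier k t) (pj x)
  simp only [mF_add, h1] at h3
  rw [integral_mul_const] at h3
  linear_combination (-1 / 2 : ℂ) * h3

instance instProbCircle : IsProbabilityMeasure (volume : Measure UnitAddCircle) :=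
  ⟨UnitAddCircle.measure_univ⟩

instance instProbTorus : IsProbabilityMeasure (volume : Measure (UnitAddTorus (Fin n))) := by
  show IsProbabilityMeasure (volume : Measure (Fin n → UnitAddCircle))
  rw [volume_pi]; infer_instance

/-- the integral of `g Φ`, `Φ` a continuous periodic function -/
theorem int_periodic (g : (Fin n → ℝ) → ℂ) (hg : Integrable g)
    (h : ∀ y : Fin n → ℤ, y ≠ 0 → ∫ x, g x * ch (∑ i, (y i : ℝ) * x i) = 0)
    (Φ : C(UnitAddTorus (Fin n), ℂ)) :
    ∫ x, g x * Φ (pj x) = (∫ x, g x) * ∫ t, Φ t := by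
  have hint : ∀ Φ : C(UnitAddTorus (Fin n), ℂ), Integrable (fun x => g x * Φ (pj x)) := by
    intro Φ
    refine hg.mul_bdd (c := ‖Φ‖) ?_ ?_
    · exact (Φ.continuous.comp pj_cont).aestronglyMeasurable
    · exact Eventually.of_forall fun x => Φ.norm_coe_le_norm _
  have hint2 : ∀ Φ : C(UnitAddTorus (Fin n), ℂ), Integrable (fun t => Φ t) := by
    intro Φ
    exact Φ.continuous.integrable_of_hasCompactSupport (HasCompactSupport.of_compactSpace _)
  let A : C(UnitAddTorus (Fin n), ℂ) →ₗ[ℂ] ℂ :=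
    { toFun := fun Φ => (∫ x, g x * Φ (pj x)) - (∫ x, g x) * ∫ t, Φ t
      map_add' := by
        intro Φ Ψ
        simp only [ContinuousMap.add_apply, mul_add]
        rw [integral_add (hint Φ) (hint Ψ), integral_add (hint2 Φ) (hint2 Ψ)]
        ring
      map_smul' := by
        intro c Φ
        simp only [ContinuousMap.smul_apply, smul_eq_mul, RingHom.id_apply]
        have h1 : ∀ x, g x * (c * Φ (pj x)) = c * (g x * Φ (pj x)) := fun x => by ring
        simp only [h1]
        rw [integral_const_mul, integral_const_mul]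
        ring }
  have hb : ∀ Φ, ‖A Φ‖ ≤ (2 * ∫ x, ‖g x‖) * ‖Φ‖ := by
    intro Φ
    have h1 : ‖∫ x, g x * Φ (pj x)‖ ≤ (∫ x, ‖g x‖) * ‖Φ‖ := by
      rw [← integral_mul_const]
      refine norm_integral_le_of_norm_le (hg.norm.mul_const _) (Eventually.of_forall fun x => ?_)
      rw [norm_mul]
      exact mul_le_mul_of_nonneg_left (Φ.norm_coe_le_norm _) (norm_nonneg _)
    have h2 : ‖(∫ x, g x) * ∫ t, Φ t‖ ≤ (∫ x, ‖g x‖) * ‖Φ‖ := by
      rw [norm_mul]
      refine mul_le_mul (norm_integral_le_integral_norm _) ?_ (norm_nonneg _)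
        (integral_nonneg fun x => norm_nonneg _)
      have h3 := norm_integral_le_of_norm_le_const (μ := (volume : Measure (UnitAddTorus (Fin n))))
        (f := fun t => Φ t) (C := ‖Φ‖) (Eventually.of_forall fun x => Φ.norm_coe_le_norm _)
      refine h3.trans (le_of_eq ?_)
      rw [probReal_univ, mul_one]
    calc ‖A Φ‖ ≤ ‖∫ x, g x * Φ (pj x)‖ + ‖(∫ x, g x) * ∫ t, Φ t‖ := norm_sub_le _ _
      _ ≤ (2 * ∫ x, ‖g x‖) * ‖Φ‖ := by linarith
  let A' := A.mkContinuous _ hb
  have hz : A' = 0 := by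
    refine ContinuousLinearMap.ext_on (s := Set.range (UnitAddTorus.mFourier (d := Fin n))) ?_ ?_
    · rw [Submodule.dense_iff_topologicalClosure_eq_top]
      exact UnitAddTorus.span_mFourier_closure_eq_top
    · rintro _ ⟨y, rfl⟩
      show (∫ x, g x * UnitAddTorus.mFourier y (pj x)) -
        (∫ x, g x) * ∫ t, UnitAddTorus.mFourier y t = 0
      simp only [mF_pj]
      by_cases hy : y = 0
      · subst hy
        simp [ch, UnitAddTorus.mFourier_zero, probReal_univ]
      · rw [h y hy, int_mF y hy]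
        simp
  have h1 : A' Φ = 0 := by rw [hz]; rfl
  exact sub_eq_zero.1 h1

end Pool.Agent.TH789.LT
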