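import Pool.Agent.TH789.LT.Wt
import Pool.Agent.TH789.LT.Per

set_option autoImplicit false

/-!
The key identity: if `f` tiles with the points `pt a` (of bounded density), then for `s ≠ 0` the
Fourier transform of `f` at `s` times the weighted mean of `exp (-2 π i s pt a)` tends to `0`.
-/

open MeasureTheory Set Filter Topology

namespace Pool.Agent.TH789.LT

open Pool.Agent.H239R2.Flat

variable {n : ℕ}

/-- the character -/
noncomputable def E (s x : Fin n → ℝ) : ℂ := ch (∑ i, s i * x i)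

theorem ch_norm (t : ℝ) : ‖ch t‖ = 1 := by
  unfold ch
  rw [show 2 * Real.pi * Complex.I * (t : ℂ) = ((2 * Real.pi * t : ℝ) : ℂ) * Complex.I by
    push_cast; ring]
  exact Complex.norm_exp_ofReal_mul_I _

theorem E_norm (s x : Fin n → ℝ) : ‖E s x‖ = 1 := ch_norm _

theorem E_add (s x y : Fin n → ℝ) : E s (x + y) = E s x * E s y := by
  unfold E
  rw [← COEF_ch_add, ← Finset.sum_add_distrib]
  congr 1
  refine Finset.sum_congr rfl fun i _ => ?_
  rw [Pi.add_apply]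
  ring

theorem E_cont (s : Fin n → ℝ) : Continuous (E s) :=
  COEF_ch_continuous.comp (by fun_prop)

theorem E_zero (x : Fin n → ℝ) : E 0 x = 1 := by
  simp [E, ch]

theorem exists_neg (s : Fin n → ℝ) (hs : s ≠ 0) : ∃ v, E s v = -1 := by
  obtain ⟨j, hj⟩ : ∃ j, s j ≠ 0 := by
    by_contra hcon
    push Not at hcon
    exact hs (funext hcon)
  refine ⟨fun i => if i = j then 1 / (2 * s j) else 0, ?_⟩
  unfold E
  have h2 : ∑ i, s i * (if i = j then 1 / (2 * s j) else 0) = 1 / 2 := by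
    rw [Finset.sum_eq_single j]
    · simp only [if_true]
      field_simp
    · intro b _ hb
      simp [hb]
    · intro h
      exact absurd (Finset.mem_univ j) h
  rw [h2]
  unfold ch
  rw [← Complex.exp_pi_mul_I]
  congr 1
  push_cast
  ring

/-- oscillation of the weights -/
theorem W_osc (s : Fin n → ℝ) (v : Fin n → ℝ) (hv : E s v = -1) {ε : ℝ} (hε : 0 < ε)
    (hε1 : ε ≤ 1) (c : Fin n → ℝ) :
    ‖∫ x, (W n ε c x : ℂ) * E s x‖ ≤ ((1 + ε * ‖v‖) ^ (n + 1) - 1) * ∫ x, W n ε 0 x := by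
  have hWi := W_int hε hε1 c
  have hWv : Integrable (fun x => W n ε c (x + v)) := hWi.comp_add_right v
  have hEm : AEStronglyMeasurable (E s) volume := (E_cont s).aestronglyMeasurable
  have hEb : ∀ᵐ x : Fin n → ℝ, ‖E s x‖ ≤ 1 := Eventually.of_forall fun x => (E_norm s x).le
  have h1 : ∫ x, (W n ε c x : ℂ) * E s x = - ∫ x, (W n ε c (x + v) : ℂ) * E s x := by
    have h := integral_add_right_eq_self (μ := volume) (fun x => (W n ε c x : ℂ) * E s x) v
    rw [← h, ← integral_neg]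
    congr 1
    funext x
    rw [E_add, hv]
    ring
  have h2 : 2 * ∫ x, (W n ε c x : ℂ) * E s x =
      ∫ x, ((W n ε c x : ℂ) - W n ε c (x + v)) * E s x := by
    have e1 : ∀ x, ((W n ε c x : ℂ) - W n ε c (x + v)) * E s x =
      (W n ε c x : ℂ) * E s x - (W n ε c (x + v) : ℂ) * E s x := fun x => by ring
    simp only [e1]
    have i1 : Integrable (fun x => (W n ε c x : ℂ) * E s x) := hWi.ofReal.mul_bdd hEm hEb
    have i2 : Integrable (fun x => (W n ε c (x + v) : ℂ) * E s x) := hWv.ofReal.mul_bdd hEm hEb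
    rw [integral_sub i1 i2]
    linear_combination h1
  have h3 : ‖∫ x, ((W n ε c x : ℂ) - W n ε c (x + v)) * E s x‖ ≤
      ∫ x, ((1 + ε * ‖v‖) ^ (n + 1) - 1) * (W n ε c x + W n ε c (x + v)) := by
    refine norm_integral_le_of_norm_le ((hWi.add hWv).const_mul _) (Eventually.of_forall fun x => ?_)
    rw [norm_mul, E_norm, mul_one, ← Complex.ofReal_sub, Complex.norm_real, Real.norm_eq_abs,
      abs_sub_comm]
    exact W_diff hε c x v
  rw [integral_const_mul, integral_add hWi hWv, integral_add_right_eq_self, W_integral, ← h2,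
    norm_mul] at h3
  simp only [Complex.norm_ofNat] at h3
  linarith

section key

variable {ι : Type*} [Countable ι] (pt : ι → Fin n → ℝ)

/-- points of bounded density: the weighted counting functions are bounded -/
def BD : Prop := ∀ ε : ℝ, 0 < ε → ε ≤ 1 → ∃ B : ℝ, ∀ (c : Fin n → ℝ) (T : Finset ι),
  ∑ a ∈ T, W n ε c (pt a) ≤ B

/-- weighted number of points -/
noncomputable def Nw (ε : ℝ) (c : Fin n → ℝ) : ℝ := ∑' a, W n ε c (pt a)

variable {pt}

omit [Countable ι] in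
theorem BD.summable (h : BD pt) {ε : ℝ} (hε : 0 < ε) (hε1 : ε ≤ 1) (c : Fin n → ℝ) :
    Summable fun a => W n ε c (pt a) := by
  obtain ⟨B, hB⟩ := h ε hε hε1
  exact summable_of_sum_le (fun a => (W_pos hε c _).le) (hB c)

omit [Countable ι] in
theorem BD.center (h : BD pt) [Nonempty ι] {ε : ℝ} (hε : 0 < ε) (hε1 : ε ≤ 1) :
    ∃ c : Fin n → ℝ, 0 < Nw pt ε c ∧ ∀ c', Nw pt ε c' ≤ 2 * Nw pt ε c := by
  obtain ⟨B, hB⟩ := h ε hε hε1
  have hle : ∀ c, Nw pt ε c ≤ B := fun c =>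
    (h.summable hε hε1 c).tsum_le_of_sum_le (hB c)
  have hpos : ∀ c, 0 < Nw pt ε c := fun c =>
    (h.summable hε hε1 c).tsum_pos (fun a => (W_pos hε c _).le) (Classical.arbitrary ι)
      (W_pos hε c _)
  have hbdd : BddAbove (Set.range (Nw pt ε)) := ⟨B, by rintro _ ⟨c, rfl⟩; exact hle c⟩
  have h0 : 0 < sSup (Set.range (Nw pt ε)) := (hpos 0).trans_le (le_csSup hbdd ⟨0, rfl⟩)
  obtain ⟨_, ⟨c, rfl⟩, hc⟩ := exists_lt_of_lt_csSup (Set.range_nonempty (Nw pt ε))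
    (half_lt_self h0)
  refine ⟨c, hpos c, fun c' => ?_⟩
  have := le_csSup hbdd ⟨c', rfl⟩
  linarith

/-- the error term -/
noncomputable def err (n : ℕ) (f : (Fin n → ℝ) → ℂ) (ε : ℝ) : ℝ :=
  ∫ y, 3 * min 1 ((1 + ε * ‖y‖) ^ (n + 1) - 1) * ‖f y‖

theorem err_int (f : (Fin n → ℝ) → ℂ) (hf : Integrable f) {ε : ℝ} (hε : 0 < ε) :
    Integrable (fun y => 3 * min 1 ((1 + ε * ‖y‖) ^ (n + 1) - 1) * ‖f y‖) := by
  refine hf.norm.bdd_mul (c := 3) ?_ (Eventually.of_forall fun y => ?_)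
  · exact (by fun_prop : Continuous fun y : Fin n → ℝ =>
      3 * min 1 ((1 + ε * ‖y‖) ^ (n + 1) - 1)).aestronglyMeasurable
  · have h1 : (1 : ℝ) ≤ (1 + ε * ‖y‖) ^ (n + 1) := one_le_pow₀ (by
      have := mul_nonneg hε.le (norm_nonneg y)
      linarith)
    rw [Real.norm_of_nonneg (mul_nonneg (by norm_num) (le_min zero_le_one (by linarith)))]
    have := min_le_left (1 : ℝ) ((1 + ε * ‖y‖) ^ (n + 1) - 1)
    linarith

theorem err_tendsto (f : (Fin n → ℝ) → ℂ) (hf : Integrable f) :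
    Tendsto (fun k : ℕ => err n f (1 / ((k : ℝ) + 1))) atTop (𝓝 0) := by
  have h0 : ∫ y : Fin n → ℝ, (0 : ℝ) = 0 := integral_zero _ _
  rw [← h0]
  unfold err
  refine tendsto_integral_of_dominated_convergence (fun y => 3 * ‖f y‖) ?_ (hf.norm.const_mul 3) ?_ ?_
  · intro k
    exact (err_int f hf (by positivity)).aestronglyMeasurable
  · intro k
    refine Eventually.of_forall fun y => ?_
    have h1 : (1 : ℝ) ≤ (1 + 1 / ((k : ℝ) + 1) * ‖y‖) ^ (n + 1) := one_le_pow₀ (by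
      have : 0 ≤ 1 / ((k : ℝ) + 1) * ‖y‖ := by positivity
      linarith)
    have h2 := min_le_left (1 : ℝ) ((1 + 1 / ((k : ℝ) + 1) * ‖y‖) ^ (n + 1) - 1)
    have h3 : 0 ≤ min (1 : ℝ) ((1 + 1 / ((k : ℝ) + 1) * ‖y‖) ^ (n + 1) - 1) :=
      le_min zero_le_one (by linarith)
    rw [Real.norm_of_nonneg (by positivity)]
    nlinarith [norm_nonneg (f y)]
  · refine Eventually.of_forall fun y => ?_
    have h1 : Tendsto (fun k : ℕ => 1 / ((k : ℝ) + 1)) atTop (𝓝 0) :=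
      tendsto_one_div_add_atTop_nhds_zero_nat
    have h2 : Continuous fun t : ℝ => 3 * min 1 ((1 + t * ‖y‖) ^ (n + 1) - 1) * ‖f y‖ := by
      fun_prop
    have h3 : Tendsto (fun k : ℕ => 3 * min 1 ((1 + 1 / ((k : ℝ) + 1) * ‖y‖) ^ (n + 1) - 1) *
        ‖f y‖) atTop (𝓝 (3 * min 1 ((1 + (0 : ℝ) * ‖y‖) ^ (n + 1) - 1) * ‖f y‖)) :=
      (h2.tendsto 0).comp h1
    have h6 : 3 * min 1 ((1 + (0 : ℝ) * ‖y‖) ^ (n + 1) - 1) * ‖f y‖ = 0 := by simp
    rw [h6] at h3
    exact h3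

theorem sum_W_le (h : BD pt) {ε : ℝ} (hε : 0 < ε) (hε1 : ε ≤ 1) (c : Fin n → ℝ)
    (hmax : ∀ c', Nw pt ε c' ≤ 2 * Nw pt ε c) (y : Fin n → ℝ) (T : Finset ι) :
    ∑ a ∈ T, W n ε c (pt a + y) ≤ 2 * Nw pt ε c := by
  simp only [W_center]
  exact ((h.summable hε hε1 (c + y)).sum_le_tsum T fun a _ => (W_pos hε _ _).le).trans (hmax _)

theorem sum_W_le' (h : BD pt) {ε : ℝ} (hε : 0 < ε) (hε1 : ε ≤ 1) (c : Fin n → ℝ)
    (T : Finset ι) : ∑ a ∈ T, W n ε c (pt a) ≤ Nw pt ε c :=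
  (h.summable hε hε1 c).sum_le_tsum T fun a _ => (W_pos hε _ _).le

theorem diff_le (h : BD pt) {ε : ℝ} (hε : 0 < ε) (hε1 : ε ≤ 1) (c : Fin n → ℝ)
    (hmax : ∀ c', Nw pt ε c' ≤ 2 * Nw pt ε c) (y : Fin n → ℝ) (T : Finset ι) :
    ∑ a ∈ T, |W n ε c (pt a + y) - W n ε c (pt a)| ≤
      Nw pt ε c * (3 * min 1 ((1 + ε * ‖y‖) ^ (n + 1) - 1)) := by
  have h1 := sum_W_le h hε hε1 c hmax y T
  have h2 := sum_W_le' h hε hε1 c T
  have h5 : 0 ≤ (1 + ε * ‖y‖) ^ (n + 1) - 1 := by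
    have : (1 : ℝ) ≤ (1 + ε * ‖y‖) ^ (n + 1) := one_le_pow₀ (by
      have := mul_nonneg hε.le (norm_nonneg y)
      linarith)
    linarith
  have h3 : ∑ a ∈ T, |W n ε c (pt a + y) - W n ε c (pt a)| ≤
      ((1 + ε * ‖y‖) ^ (n + 1) - 1) * (3 * Nw pt ε c) := by
    calc ∑ a ∈ T, |W n ε c (pt a + y) - W n ε c (pt a)|
        ≤ ∑ a ∈ T, ((1 + ε * ‖y‖) ^ (n + 1) - 1) * (W n ε c (pt a) + W n ε c (pt a + y)) :=
          Finset.sum_le_sum fun a _ => W_diff hε c (pt a) y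
      _ = ((1 + ε * ‖y‖) ^ (n + 1) - 1) * (∑ a ∈ T, W n ε c (pt a) +
            ∑ a ∈ T, W n ε c (pt a + y)) := by
          rw [← Finset.mul_sum, Finset.sum_add_distrib]
      _ ≤ _ := mul_le_mul_of_nonneg_left (by linarith) h5
  have h4 : ∑ a ∈ T, |W n ε c (pt a + y) - W n ε c (pt a)| ≤ 3 * Nw pt ε c := by
    calc ∑ a ∈ T, |W n ε c (pt a + y) - W n ε c (pt a)|
        ≤ ∑ a ∈ T, (W n ε c (pt a) + W n ε c (pt a + y)) := by
          refine Finset.sum_le_sum fun a _ => ?_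
          have e1 := W_pos hε c (pt a)
          have e2 := W_pos hε c (pt a + y)
          rw [abs_le]
          constructor <;> linarith
      _ = ∑ a ∈ T, W n ε c (pt a) + ∑ a ∈ T, W n ε c (pt a + y) := Finset.sum_add_distrib
      _ ≤ _ := by linarith
  rcases min_choice (1 : ℝ) ((1 + ε * ‖y‖) ^ (n + 1) - 1) with hm | hm <;> rw [hm]
  · linarith
  · linarith

theorem key_bound (h : BD pt) (f : (Fin n → ℝ) → ℂ) (hf : Integrable f) (w : ℂ)
    (ht : ∀ᵐ x, HasSum (fun a => f (x - pt a)) w) {ε : ℝ} (hε : 0 < ε) (hε1 : ε ≤ 1)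
    (c : Fin n → ℝ) (hmax : ∀ c', Nw pt ε c' ≤ 2 * Nw pt ε c) (s : Fin n → ℝ) :
    ‖w * (∫ x, (W n ε c x : ℂ) * E s x) -
      (∫ y, f y * E s y) * ∑' a, (W n ε c (pt a) : ℂ) * E s (pt a)‖ ≤ Nw pt ε c * err n f ε := by
  have hWE : AEStronglyMeasurable (fun x => (W n ε c x : ℂ) * E s x) volume :=
    ((Complex.continuous_ofReal.comp (W_cont hε c)).mul (E_cont s)).aestronglyMeasurable
  have hWEb : ∀ x, ‖(W n ε c x : ℂ) * E s x‖ = W n ε c x := fun x => by
    rw [norm_mul, E_norm, mul_one, Complex.norm_real, Real.norm_of_nonneg (W_pos hε c x).le]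
  have hWE' : ∀ a, AEStronglyMeasurable (fun y => (W n ε c (pt a + y) : ℂ) * E s (pt a + y))
      volume := fun a =>
    ((Complex.continuous_ofReal.comp ((W_cont hε c).comp (by fun_prop))).mul
      ((E_cont s).comp (by fun_prop))).aestronglyMeasurable
  have hfi' : ∀ a, Integrable (fun y => ((W n ε c (pt a + y) : ℂ) * E s (pt a + y)) * f y) :=
    fun a => hf.bdd_mul (c := 1) (hWE' a) (Eventually.of_forall fun x => by
      rw [hWEb]; exact W_le_one hε c _)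
  have hFi : ∀ a, Integrable (fun x => ((W n ε c x : ℂ) * E s x) * f (x - pt a)) := fun a =>
    (hf.comp_sub_right (pt a)).bdd_mul (c := 1) hWE (Eventually.of_forall fun x => by
      rw [hWEb]; exact W_le_one hε c _)
  have htr : ∀ (a : ι), ∫ x, ((W n ε c x : ℂ) * E s x) * f (x - pt a) =
      ∫ y, ((W n ε c (pt a + y) : ℂ) * E s (pt a + y)) * f y := by
    intro a
    rw [← integral_add_right_eq_self (fun x => ((W n ε c x : ℂ) * E s x) * f (x - pt a)) (pt a)]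
    congr 1
    funext y
    rw [add_sub_cancel_right, add_comm y]
  have htr2 : ∀ (a : ι), ∫ x, ‖((W n ε c x : ℂ) * E s x) * f (x - pt a)‖ =
      ∫ y, W n ε c (pt a + y) * ‖f y‖ := by
    intro a
    rw [← integral_add_right_eq_self (fun x => ‖((W n ε c x : ℂ) * E s x) * f (x - pt a)‖) (pt a)]
    congr 1
    funext y
    rw [add_sub_cancel_right, add_comm y, norm_mul, hWEb]
  have hint3 : ∀ a, Integrable (fun y => W n ε c (pt a + y) * ‖f y‖) := fun a =>
    hf.norm.bdd_mul (c := 1) ((W_cont hε c).comp (by fun_prop)).aestronglyMeasurable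
      (Eventually.of_forall fun x => by
        rw [Real.norm_of_nonneg (W_pos hε c _).le]; exact W_le_one hε c _)
  have hsum : Summable fun a => ∫ x, ‖((W n ε c x : ℂ) * E s x) * f (x - pt a)‖ := by
    refine summable_of_sum_le (c := ∫ y, 2 * Nw pt ε c * ‖f y‖)
      (fun a => integral_nonneg fun x => norm_nonneg _) fun T => ?_
    simp only [htr2]
    rw [← integral_finsetSum T fun a _ => hint3 a]
    refine integral_mono (integrable_finsetSum T fun a _ => hint3 a) (hf.norm.const_mul _)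
      fun y => ?_
    show ∑ a ∈ T, W n ε c (pt a + y) * ‖f y‖ ≤ 2 * Nw pt ε c * ‖f y‖
    rw [← Finset.sum_mul]
    exact mul_le_mul_of_nonneg_right (sum_W_le h hε hε1 c hmax y T) (norm_nonneg _)
  have h1 := hasSum_integral_of_summable_integral_norm hFi hsum
  have h2 : ∫ x, ∑' a, ((W n ε c x : ℂ) * E s x) * f (x - pt a) =
      w * ∫ x, (W n ε c x : ℂ) * E s x := by
    rw [← integral_const_mul]
    refine integral_congr_ae ?_
    filter_upwards [ht] with x hx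
    rw [tsum_mul_left, hx.tsum_eq, mul_comm]
  rw [h2] at h1
  simp only [htr] at h1
  have h3s : Summable fun a => (W n ε c (pt a) : ℂ) * E s (pt a) := by
    refine Summable.of_norm ?_
    simp only [hWEb]
    exact h.summable hε hε1 c
  have h3 := h3s.hasSum.mul_left (∫ y, f y * E s y)
  have h4 := h1.sub h3
  refine le_of_tendsto h4.norm (Eventually.of_forall fun T => ?_)
  have hterm : ∀ a, ‖(∫ y, ((W n ε c (pt a + y) : ℂ) * E s (pt a + y)) * f y) -
      (∫ y, f y * E s y) * ((W n ε c (pt a) : ℂ) * E s (pt a))‖ ≤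
      ∫ y, |W n ε c (pt a + y) - W n ε c (pt a)| * ‖f y‖ := by
    intro a
    have hfE : Integrable (fun y => f y * E s y) :=
      hf.mul_bdd (c := 1) (E_cont s).aestronglyMeasurable
        (Eventually.of_forall fun x => (E_norm s x).le)
    rw [← integral_mul_const, ← integral_sub (hfi' a) (hfE.mul_const _)]
    refine (norm_integral_le_integral_norm _).trans (le_of_eq ?_)
    congr 1
    funext y
    have e1 : ((W n ε c (pt a + y) : ℂ) * E s (pt a + y)) * f y -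
        f y * E s y * ((W n ε c (pt a) : ℂ) * E s (pt a)) =
        (((W n ε c (pt a + y) - W n ε c (pt a) : ℝ)) : ℂ) * E s (pt a + y) * f y := by
      rw [E_add]
      push_cast
      ring
    rw [e1, norm_mul, norm_mul, E_norm, mul_one, Complex.norm_real, Real.norm_eq_abs]
  have hint4 : ∀ a, Integrable (fun y => |W n ε c (pt a + y) - W n ε c (pt a)| * ‖f y‖) :=
    fun a => hf.norm.bdd_mul (c := 1)
      ((((W_cont hε c).comp (by fun_prop)).sub continuous_const).abs).aestronglyMeasurable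
      (Eventually.of_forall fun x => by
        rw [Real.norm_of_nonneg (abs_nonneg _), abs_le]
        have e1 := W_pos hε c (pt a)
        have e2 := W_pos hε c (pt a + x)
        have e3 := W_le_one hε c (pt a)
        have e4 := W_le_one hε c (pt a + x)
        constructor <;> linarith)
  calc ‖∑ a ∈ T, ((∫ y, ((W n ε c (pt a + y) : ℂ) * E s (pt a + y)) * f y) -
      (∫ y, f y * E s y) * ((W n ε c (pt a) : ℂ) * E s (pt a)))‖
      ≤ ∑ a ∈ T, ∫ y, |W n ε c (pt a + y) - W n ε c (pt a)| * ‖f y‖ :=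
        norm_sum_le_of_le _ fun a _ => hterm a
    _ = ∫ y, ∑ a ∈ T, |W n ε c (pt a + y) - W n ε c (pt a)| * ‖f y‖ :=
        (integral_finsetSum T fun a _ => hint4 a).symm
    _ ≤ ∫ y, Nw pt ε c * (3 * min 1 ((1 + ε * ‖y‖) ^ (n + 1) - 1) * ‖f y‖) := by
        refine integral_mono (integrable_finsetSum T fun a _ => hint4 a)
          ((err_int f hf hε).const_mul _) fun y => ?_
        show ∑ a ∈ T, |W n ε c (pt a + y) - W n ε c (pt a)| * ‖f y‖ ≤
          Nw pt ε c * (3 * min 1 ((1 + ε * ‖y‖) ^ (n + 1) - 1) * ‖f y‖)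
        rw [← Finset.sum_mul, ← mul_assoc]
        exact mul_le_mul_of_nonneg_right (diff_le h hε hε1 c hmax y T) (norm_nonneg _)
    _ = _ := by rw [integral_const_mul]; rfl

theorem rho_tendsto (v : Fin n → ℝ) :
    Tendsto (fun k : ℕ => (1 + 1 / ((k : ℝ) + 1) * ‖v‖) ^ (n + 1) - 1) atTop (𝓝 0) := by
  have h1 : Tendsto (fun k : ℕ => 1 / ((k : ℝ) + 1)) atTop (𝓝 0) :=
    tendsto_one_div_add_atTop_nhds_zero_nat
  have h2 : Continuous fun t : ℝ => (1 + t * ‖v‖) ^ (n + 1) - 1 := by fun_prop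
  have h3 : Tendsto (fun k : ℕ => (1 + 1 / ((k : ℝ) + 1) * ‖v‖) ^ (n + 1) - 1) atTop
      (𝓝 ((1 + (0 : ℝ) * ‖v‖) ^ (n + 1) - 1)) := (h2.tendsto 0).comp h1
  have h6 : (1 + (0 : ℝ) * ‖v‖) ^ (n + 1) - 1 = 0 := by simp
  rw [h6] at h3
  exact h3

/-- the key limit -/
theorem key_limit (h : BD pt) (f : (Fin n → ℝ) → ℂ) (hf : Integrable f) (w : ℂ)
    (ht : ∀ᵐ x, HasSum (fun a => f (x - pt a)) w) (c : ℕ → Fin n → ℝ)
    (hN : ∀ k : ℕ, 0 < Nw pt (1 / ((k : ℝ) + 1)) (c k))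
    (hmax : ∀ (k : ℕ) c', Nw pt (1 / ((k : ℝ) + 1)) c' ≤ 2 * Nw pt (1 / ((k : ℝ) + 1)) (c k))
    (s : Fin n → ℝ) (hs : s ≠ 0) :
    Tendsto (fun k : ℕ => (∫ y, f y * E s y) *
      ((∑' a, (W n (1 / ((k : ℝ) + 1)) (c k) (pt a) : ℂ) * E s (pt a)) /
        (Nw pt (1 / ((k : ℝ) + 1)) (c k) : ℂ))) atTop (𝓝 0) := by
  obtain ⟨v, hv⟩ := exists_neg s hs
  have hlim : Tendsto (fun k : ℕ => err n f (1 / ((k : ℝ) + 1)) +
      ((1 + 1 / ((k : ℝ) + 1) * ‖v‖) ^ (n + 1) - 1) *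
        (err n f (1 / ((k : ℝ) + 1)) + ‖∫ y, f y‖)) atTop (𝓝 0) := by
    have h1 := (err_tendsto f hf).add ((rho_tendsto v).mul
      ((err_tendsto f hf).add_const ‖∫ y, f y‖))
    simpa using h1
  refine squeeze_zero_norm (fun k => ?_) hlim
  set ε : ℝ := 1 / ((k : ℝ) + 1) with hε'
  have hε : 0 < ε := by positivity
  have hε1 : ε ≤ 1 := by
    rw [hε', div_le_one (by positivity)]
    have : (0 : ℝ) ≤ k := Nat.cast_nonneg k
    linarith
  have hNk := hN k
  rw [← hε'] at hNk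
  have hm : ∀ c', Nw pt ε c' ≤ 2 * Nw pt ε (c k) := hmax k
  have k1 := key_bound h f hf w ht hε hε1 (c k) hm s
  have k0 := key_bound h f hf w ht hε hε1 (c k) hm 0
  simp only [E_zero, mul_one] at k0
  rw [integral_complex_ofReal, ← Complex.ofReal_tsum] at k0
  change ‖w * ((∫ x, W n ε (c k) x : ℝ) : ℂ) - (∫ y, f y) * ((Nw pt ε (c k) : ℝ) : ℂ)‖ ≤ _ at k0
  have hosc := W_osc s v hv hε hε1 (c k)
  rw [W_integral] at k0
  set N : ℝ := Nw pt ε (c k)
  set I0 : ℝ := ∫ x, W n ε 0 x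
  have hI0 : 0 ≤ I0 := W_integral_nonneg hε 0
  have h1 : ‖w‖ * I0 ≤ N * (err n f ε + ‖∫ y, f y‖) := by
    have e1 : ‖w‖ * I0 = ‖w * (I0 : ℂ)‖ := by
      rw [norm_mul, Complex.norm_real, Real.norm_of_nonneg hI0]
    have e2 : ‖(∫ y, f y) * (N : ℂ)‖ = ‖∫ y, f y‖ * N := by
      rw [norm_mul, Complex.norm_real, Real.norm_of_nonneg hNk.le]
    have e3 := norm_add_le (w * (I0 : ℂ) - (∫ y, f y) * (N : ℂ)) ((∫ y, f y) * (N : ℂ))
    rw [sub_add_cancel] at e3
    rw [e1]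
    linarith
  set S : ℂ := ∑' a, (W n ε (c k) (pt a) : ℂ) * E s (pt a)
  set ρ : ℝ := (1 + ε * ‖v‖) ^ (n + 1) - 1
  have hρ : 0 ≤ ρ := by
    have : (1 : ℝ) ≤ (1 + ε * ‖v‖) ^ (n + 1) := one_le_pow₀ (by
      have := mul_nonneg hε.le (norm_nonneg v)
      linarith)
    show 0 ≤ (1 + ε * ‖v‖) ^ (n + 1) - 1
    linarith
  have h2 : ‖(∫ y, f y * E s y) * S‖ ≤ N * err n f ε + ‖w‖ * (ρ * I0) := by
    have e3 := norm_sub_norm_le ((∫ y, f y * E s y) * S) (w * ∫ x, (W n ε (c k) x : ℂ) * E s x)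
    have e4 : ‖(∫ y, f y * E s y) * S - w * ∫ x, (W n ε (c k) x : ℂ) * E s x‖ ≤
        N * err n f ε := by
      rw [norm_sub_rev]; exact k1
    have e5 : ‖w * ∫ x, (W n ε (c k) x : ℂ) * E s x‖ ≤ ‖w‖ * (ρ * I0) := by
      rw [norm_mul]
      exact mul_le_mul_of_nonneg_left hosc (norm_nonneg _)
    linarith
  have h3 : ‖(∫ y, f y * E s y) * (S / (N : ℂ))‖ = ‖(∫ y, f y * E s y) * S‖ / N := by
    rw [← mul_div_assoc, norm_div, Complex.norm_real, Real.norm_of_nonneg hNk.le]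
  rw [h3, div_le_iff₀ hNk]
  have h4 : ‖w‖ * (ρ * I0) ≤ ρ * (N * (err n f ε + ‖∫ y, f y‖)) := by
    calc ‖w‖ * (ρ * I0) = ρ * (‖w‖ * I0) := by ring
      _ ≤ _ := mul_le_mul_of_nonneg_left h1 hρ
  nlinarith [h2, h4]

end key

end Pool.Agent.TH789.LT
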