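import Pool.Agent.TH789.LT.Cnt
import Pool.Agent.TH789.LT.Cls
import Pool.Agent.TH789.LT.Per2

set_option autoImplicit false

/-!
Majority of the points in one translated lattice.
-/

open MeasureTheory Set Filter Topology Metric
open scoped ENNReal

namespace Pool.Agent.TH789.LT

open Pool.Agent.H239R2.Flat

variable {n : ℕ}

theorem lattice_tiling_one (f : (Fin n → ℝ) → ℂ) (hf : Integrable f)
    (A : (Fin n → ℝ) ≃ₗ[ℝ] (Fin n → ℝ))
    (h : ∀ y : Fin n → ℤ, y ≠ 0 → ∫ x, f x * E (fun j => (y j : ℝ)) (A.symm x) = 0) :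
    ∀ᵐ x : Fin n → ℝ, HasSum (fun z : Fin n → ℤ => f (x - A fun i => (z i : ℝ)))
      (∫ u, f (A u)) := by
  have hdet : LinearMap.det (A : (Fin n → ℝ) →ₗ[ℝ] (Fin n → ℝ)) ≠ 0 := A.isUnit_det'.ne_zero
  have hdet' : LinearMap.det (A.symm : (Fin n → ℝ) →ₗ[ℝ] (Fin n → ℝ)) ≠ 0 :=
    A.symm.isUnit_det'.ne_zero
  have hmap := Measure.map_linearMap_addHaar_eq_smul_addHaar
    (volume : Measure (Fin n → ℝ)) hdet
  have hme : MeasurableEmbedding (fun u => A u) :=
    A.toContinuousLinearEquiv.toHomeomorph.measurableEmbedding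
  have hmap' : Measure.map (fun u => A u) (volume : Measure (Fin n → ℝ)) =
      ENNReal.ofReal |(LinearMap.det (A : (Fin n → ℝ) →ₗ[ℝ] (Fin n → ℝ)))⁻¹| • volume := hmap
  have hg : Integrable (fun u => f (A u)) := by
    have h1 : Integrable f (Measure.map (fun u => A u) volume) := by
      rw [hmap']
      exact hf.smul_measure ENNReal.ofReal_ne_top
    exact (hme.integrable_map_iff).1 h1
  have hgv : ∀ y : Fin n → ℤ, y ≠ 0 →
      ∫ u, f (A u) * ch (∑ i, (y i : ℝ) * u i) = 0 := by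
    intro y hy
    have h1 := hme.integral_map (μ := volume)
      (fun x => f x * ch (∑ i, (y i : ℝ) * (A.symm x) i))
    simp only [A.symm_apply_apply] at h1
    rw [← h1, hmap', integral_smul_measure]
    have h2 : ∀ x, ch (∑ i, (y i : ℝ) * (A.symm x) i) =
        E (fun j => (y j : ℝ)) (A.symm x) := fun x => rfl
    simp only [h2]
    rw [h y hy, smul_zero]
  have hper := periodize (fun u => f (A u)) hg hgv
  have hqm := Measure.LinearMap.quasiMeasurePreserving (volume : Measure (Fin n → ℝ))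
    (A.symm : (Fin n → ℝ) →ₗ[ℝ] (Fin n → ℝ)) hdet'
  filter_upwards [hqm.ae hper] with x hx
  refine hx.congr_fun ?_ |> id
  intro z
  show f (x - A fun i => (z i : ℝ)) = f (A fun i => (A.symm x) i - (z i : ℝ))
  congr 1
  have h3 : (fun i => (A.symm x) i - (z i : ℝ)) = A.symm x - fun i => (z i : ℝ) := rfl
  rw [h3, map_sub, A.apply_symm_apply]

theorem sub_summable {S Q : Set (Fin n → ℝ)} (hQ : Q ⊆ S) (g : (Fin n → ℝ) → ℝ)
    (h : Summable fun a : S => g a) : Summable fun a : Q => g a :=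
  h.comp_injective (Set.inclusion_injective hQ)

theorem sub_hasSum {S Q : Set (Fin n → ℝ)} (hQ : Q ⊆ S) (g : (Fin n → ℝ) → ℝ) (X : ℝ)
    (h : HasSum (fun a : Q => g a) X) : HasSum (fun a : S => Q.indicator g a) X := by
  have h5 := (hasSum_subtype_iff_indicator (f := g) (s := Q)).1 h
  refine (hasSum_subtype_iff_indicator (f := Q.indicator g) (s := S) (a := X)).2 ?_
  rw [indicator_indicator, inter_eq_self_of_subset_right hQ]
  exact h5

/-- the weighted mean of a character which is constant on the majority of the points -/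
theorem mean_low (S Q : Set (Fin n → ℝ)) [Countable S] [Countable Q] (hQ : Q ⊆ S)
    (h : BD (fun a : S => (a : Fin n → ℝ))) (s : Fin n → ℝ) (τ : Fin n → ℝ)
    (hlat : ∀ a ∈ S, a ∉ Q → E s a = E s τ) (r : ℝ) (hr : 0 < r) (θ : ℝ) (hθ0 : 0 ≤ θ)
    (hmaj : ∀ x, ((Q ∩ ball x r).encard : ℝ≥0∞) ≤
      ENNReal.ofReal θ * ((S ∩ ball x r).encard : ℝ≥0∞))
    (ε : ℝ) (e0 : 0 < ε) (e1 : ε ≤ 1) (c : Fin n → ℝ) (N : ℝ)
    (hNeq : N = Nw (fun a : S => (a : Fin n → ℝ)) ε c) (hNk : 0 < N) :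
    1 - 2 * (((1 + ε * r) ^ (n + 1)) ^ 2 * θ) ≤
      ‖(∑' a : S, (W n ε c a : ℂ) * E s a) / (N : ℂ)‖ := by
  have hWs : Summable fun a : S => W n ε c a := h.summable e0 e1 c
  have hNt : N = ∑' a : S, W n ε c a := hNeq
  have hwcS : wc n S ε c = ENNReal.ofReal N := by
    unfold wc
    rw [hNt, ENNReal.ofReal_tsum_of_nonneg (fun a => (W_pos e0 _ _).le) hWs]
  have hcmp := wc_compare S Q e0 hr c (ENNReal.ofReal θ) hmaj ENNReal.ofReal_ne_top
  have hρ : 0 ≤ (1 + ε * r) ^ (n + 1) := by positivity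
  have hQs : Summable fun a : Q => W n ε c a := sub_summable hQ (W n ε c) hWs
  obtain ⟨X, hX⟩ : ∃ X : ℝ, X = ∑' a : Q, W n ε c a := ⟨_, rfl⟩
  have hXle : X ≤ ((1 + ε * r) ^ (n + 1)) ^ 2 * θ * N := by
    have h1 : wc n Q ε c = ENNReal.ofReal X := by
      unfold wc
      rw [hX, ENNReal.ofReal_tsum_of_nonneg (fun a => (W_pos e0 _ _).le) hQs]
    rw [h1, hwcS, ← ENNReal.ofReal_pow hρ, ← ENNReal.ofReal_mul (by positivity),
      ← ENNReal.ofReal_mul (by positivity)] at hcmp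
    exact (ENNReal.ofReal_le_ofReal_iff (by positivity)).1 hcmp
  have hWE : Summable fun a : S => (W n ε c a : ℂ) * E s a := by
    refine Summable.of_norm (hWs.congr fun a => ?_)
    rw [norm_mul, E_norm, mul_one, Complex.norm_real, Real.norm_of_nonneg (W_pos e0 _ _).le]
  have hWτ : Summable fun a : S => (W n ε c a : ℂ) * E s τ := by
    refine Summable.of_norm (hWs.congr fun a => ?_)
    rw [norm_mul, E_norm, mul_one, Complex.norm_real, Real.norm_of_nonneg (W_pos e0 _ _).le]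
  have hτ : ∑' a : S, (W n ε c a : ℂ) * E s τ = (N : ℂ) * E s τ := by
    rw [tsum_mul_right, ← Complex.ofReal_tsum, ← hNt]
  have hdiff : ‖(∑' a : S, (W n ε c a : ℂ) * E s a) - (N : ℂ) * E s τ‖ ≤ 2 * X := by
    rw [← hτ, ← hWE.tsum_sub hWτ]
    have h1 : ∀ a : S, ‖(W n ε c a : ℂ) * E s a - (W n ε c a : ℂ) * E s τ‖ ≤
        Q.indicator (fun a => 2 * W n ε c a) a := by
      intro a
      by_cases ha : (a : Fin n → ℝ) ∈ Q
      · rw [indicator_of_mem ha, ← mul_sub,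
          norm_mul, Complex.norm_real, Real.norm_of_nonneg (W_pos e0 _ _).le]
        have h2 : ‖E s a - E s τ‖ ≤ 2 := by
          refine (norm_sub_le _ _).trans ?_
          rw [E_norm, E_norm]
          norm_num
        nlinarith [W_pos e0 c (a : Fin n → ℝ)]
      · rw [hlat a a.2 ha, sub_self, norm_zero, indicator_of_notMem ha]
    have h3 : HasSum (fun a : S => Q.indicator (fun a => 2 * W n ε c a) a) (2 * X) := by
      refine sub_hasSum hQ _ _ ?_
      rw [hX]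
      exact hQs.hasSum.mul_left 2
    exact tsum_of_norm_bounded h3 h1
  have h7 : ‖(N : ℂ) * E s τ‖ = N := by
    rw [norm_mul, E_norm, mul_one, Complex.norm_real, Real.norm_of_nonneg hNk.le]
  rw [norm_div, Complex.norm_real, Real.norm_of_nonneg hNk.le, le_div_iff₀ hNk]
  have h8 := norm_sub_norm_le ((N : ℂ) * E s τ) (∑' a : S, (W n ε c a : ℂ) * E s a)
  rw [h7, norm_sub_rev] at h8
  nlinarith

/-- the Fourier transform vanishes at the nonzero points of the dual of a lattice which, up to a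
translation, contains the majority of the points -/
theorem majority (S : Set (Fin n → ℝ)) (hne : S.Nonempty) (M : ℕ)
    (hM : ∀ x, (S ∩ ball x 1).encard ≤ M) (A : (Fin n → ℝ) ≃ₗ[ℝ] (Fin n → ℝ))
    (τ : Fin n → ℝ) (r : ℝ) (hr : 0 < r) (θ : ℝ) (hθ0 : 0 ≤ θ) (hθ : θ < 1 / 2)
    (hmaj : ∀ x, (((S \ Lat A τ) ∩ ball x r).encard : ℝ≥0∞) ≤
      ENNReal.ofReal θ * ((S ∩ ball x r).encard : ℝ≥0∞))
    (f : (Fin n → ℝ) → ℂ) (hf : Integrable f) (w : ℂ)
    (ht : ∀ᵐ x, HasSum (fun a : S => f (x - a)) w) (y : Fin n → ℤ) (hy : y ≠ 0) :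
    ∫ x, f x * E (fun j => (y j : ℝ)) (A.symm x) = 0 := by
  have hSc : S.Countable := bd_countable S M hM
  have : Countable S := hSc.to_subtype
  have : Nonempty S := hne.to_subtype
  have hQS : S \ Lat A τ ⊆ S := sdiff_subset
  have : Countable (S \ Lat A τ : Set (Fin n → ℝ)) := (hSc.mono hQS).to_subtype
  have h : BD (fun a : S => (a : Fin n → ℝ)) := bd_BD S M hM
  have hε : ∀ k : ℕ, (0 : ℝ) < 1 / ((k : ℝ) + 1) := fun k => by positivity
  have hε1 : ∀ k : ℕ, (1 : ℝ) / ((k : ℝ) + 1) ≤ 1 := fun k => by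
    rw [div_le_one (by positivity)]
    have : (0 : ℝ) ≤ k := Nat.cast_nonneg k
    linarith
  choose c hN hmax using fun k : ℕ => h.center (hε k) (hε1 k)
  set s : Fin n → ℝ := dual A (fun j => (y j : ℝ)) with hs
  have hs0 : s ≠ 0 := by
    apply dual_ne
    intro h0
    apply hy
    funext j
    have h1 : (y j : ℝ) = 0 := congrFun h0 j
    show y j = 0
    exact_mod_cast h1
  have hlat : ∀ a ∈ S, a ∉ S \ Lat A τ → E s a = E s τ := by
    intro a ha haQ
    have haL : a ∈ Lat A τ := by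
      by_contra hcon
      exact haQ ⟨ha, hcon⟩
    obtain ⟨z, rfl⟩ := haL
    have h1 : E s (A fun i => (z i : ℝ)) = 1 := by
      rw [hs, E_dual, A.symm_apply_apply]
      have h2 := COEF_ch_int (∑ i, y i * z i)
      rw [← h2]
      unfold E
      congr 1
      push_cast
      rfl
    show E s (A (fun i => (z i : ℝ)) + τ) = E s τ
    rw [E_add, h1, one_mul]
  have hkey := key_limit h f hf w ht c hN hmax s hs0
  have hlow : ∀ k : ℕ, 1 - 2 * (((1 + 1 / ((k : ℝ) + 1) * r) ^ (n + 1)) ^ 2 * θ) ≤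
      ‖(∑' a : S, (W n (1 / ((k : ℝ) + 1)) (c k) a : ℂ) * E s a) /
        (Nw (fun a : S => (a : Fin n → ℝ)) (1 / ((k : ℝ) + 1)) (c k) : ℂ)‖ := fun k =>
    mean_low S (S \ Lat A τ) hQS h s τ hlat r hr θ hθ0 hmaj _ (hε k) (hε1 k) (c k) _ rfl (hN k)
  have hρlim : Tendsto (fun k : ℕ => 1 - 2 * (((1 + 1 / ((k : ℝ) + 1) * r) ^ (n + 1)) ^ 2 * θ))
      atTop (𝓝 (1 - 2 * θ)) := by
    have h1 : Tendsto (fun k : ℕ => 1 / ((k : ℝ) + 1)) atTop (𝓝 0) :=
      tendsto_one_div_add_atTop_nhds_zero_nat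
    have h2 : Continuous fun t : ℝ => 1 - 2 * (((1 + t * r) ^ (n + 1)) ^ 2 * θ) := by fun_prop
    have h3 : Tendsto (fun k : ℕ => 1 - 2 * (((1 + 1 / ((k : ℝ) + 1) * r) ^ (n + 1)) ^ 2 * θ))
        atTop (𝓝 (1 - 2 * (((1 + (0 : ℝ) * r) ^ (n + 1)) ^ 2 * θ))) := (h2.tendsto 0).comp h1
    have h4 : 1 - 2 * (((1 + (0 : ℝ) * r) ^ (n + 1)) ^ 2 * θ) = 1 - 2 * θ := by simp
    rw [h4] at h3
    exact h3
  have hzero : ∫ x, f x * E s x = 0 := by
    by_contra hne0
    have hpos : 0 < ‖∫ x, f x * E s x‖ := norm_pos_iff.2 hne0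
    have h1 : Tendsto (fun k : ℕ => ‖∫ x, f x * E s x‖ *
        (1 - 2 * (((1 + 1 / ((k : ℝ) + 1) * r) ^ (n + 1)) ^ 2 * θ))) atTop
        (𝓝 (‖∫ x, f x * E s x‖ * (1 - 2 * θ))) := hρlim.const_mul _
    have h2' := hkey.norm
    rw [norm_zero] at h2'
    have h2 : ‖∫ x, f x * E s x‖ * (1 - 2 * θ) ≤ 0 := by
      refine le_of_tendsto_of_tendsto' h1 h2' fun k => ?_
      rw [norm_mul]
      exact mul_le_mul_of_nonneg_left (hlow k) (norm_nonneg _)
    nlinarith
  simp only [hs, E_dual] at hzero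
  exact hzero

end Pool.Agent.TH789.LT
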