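import Pool.Agent.TH789.LT.Van
import Pool.Agent.TH789.LT.Maj

set_option autoImplicit false

/-!
At least half of the weight in one translated lattice.
-/

open MeasureTheory Set Filter Topology

namespace Pool.Agent.TH789.LT

open Pool.Agent.H239R2.Flat

variable {n : ℕ}

/-- the filter of the sets of full weight -/
def fullF {κ : Type} (p : ℕ → κ → ℝ) (hp0 : ∀ k a, 0 ≤ p k a) (hps : ∀ k, Summable (p k))
    (U : Ultrafilter ℕ) : Filter κ where
  sets := {B | Tendsto (fun k => ∑' a, Bᶜ.indicator (p k) a) U (𝓝 0)}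
  univ_sets := by simp
  sets_of_superset := by
    intro B B' hB hBB'
    refine squeeze_zero (fun k => tsum_nonneg fun a => indicator_nonneg (fun a _ => hp0 k a) a)
      (fun k => ?_) hB
    refine Summable.tsum_le_tsum (fun a => ?_) ((hps k).indicator _) ((hps k).indicator _)
    exact indicator_le_indicator_of_subset (compl_subset_compl.2 hBB') (fun a => hp0 k a) a
  inter_sets := by
    intro B B' hB hB'
    have h1 : Tendsto (fun k => ∑' a, Bᶜ.indicator (p k) a + ∑' a, B'ᶜ.indicator (p k) a) U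
        (𝓝 0) := by
      have h2 := Tendsto.add (show Tendsto (fun k => ∑' a, Bᶜ.indicator (p k) a) U (𝓝 0) from hB)
        (show Tendsto (fun k => ∑' a, B'ᶜ.indicator (p k) a) U (𝓝 0) from hB')
      rwa [add_zero] at h2
    refine squeeze_zero (fun k => tsum_nonneg fun a => indicator_nonneg (fun a _ => hp0 k a) a)
      (fun k => ?_) h1
    rw [← ((hps k).indicator _).tsum_add ((hps k).indicator _)]
    refine Summable.tsum_le_tsum (fun a => ?_) ((hps k).indicator _)
      (((hps k).indicator _).add ((hps k).indicator _))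
    have e1 : 0 ≤ Bᶜ.indicator (p k) a := indicator_nonneg (fun a _ => hp0 k a) a
    have e2 : 0 ≤ B'ᶜ.indicator (p k) a := indicator_nonneg (fun a _ => hp0 k a) a
    by_cases ha : a ∈ (B ∩ B')ᶜ
    · rw [indicator_of_mem ha]
      by_cases hb : a ∈ B
      · have hb' : a ∈ B'ᶜ := fun h => ha ⟨hb, h⟩
        rw [indicator_of_mem hb'] at e2 ⊢
        linarith
      · have hb' : a ∈ Bᶜ := hb
        rw [indicator_of_mem hb'] at e1 ⊢
        linarith
    · rw [indicator_of_notMem ha]
      linarith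

theorem char_limit {κ : Type} (p : ℕ → κ → ℝ) (hp0 : ∀ k a, 0 ≤ p k a)
    (hps : ∀ k, Summable (p k)) (U : Ultrafilter ℕ) (δ : ℝ) (hδ : 0 < δ)
    (hpl : Tendsto (fun k => ∑' a, p k a) U (𝓝 δ)) (e : κ → Fin n → ℂ)
    (he : ∀ a k, ‖e a k‖ = 1) :
    ∃ x : Fin n → ℂ, (∀ k, x k ≠ 0) ∧ ∀ (g : κ → ℂ) (y : Fin n → ℤ),
      (∀ a, g a = ∏ k, (e a k) ^ (y k)) → ∀ ψ : ℂ, ‖ψ‖ = 1 →
      Tendsto (fun k => ∑' a, (p k a : ℂ) * g a) U (𝓝 ((δ : ℂ) * ψ)) → ψ = ∏ k, (x k) ^ (y k) := by
  classical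
  set F := fullF p hp0 hps U with hF
  have hne : F.NeBot := by
    rw [neBot_iff]
    intro hbot
    have h1 : (∅ : Set κ) ∈ F := by rw [hbot]; exact mem_bot
    have h2 : Tendsto (fun k => ∑' a, (∅ : Set κ)ᶜ.indicator (p k) a) U (𝓝 0) := h1
    simp only [compl_empty, indicator_univ] at h2
    exact hδ.ne' (tendsto_nhds_unique hpl h2)
  set V : Ultrafilter κ := Ultrafilter.of F with hV
  have hVF : (V : Filter κ) ≤ F := Ultrafilter.of_le F
  have hx : ∀ k, ∃ x : ℂ, ‖x‖ = 1 ∧ Tendsto (fun a => e a k) V (𝓝 x) := by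
    intro k
    obtain ⟨x, hx, hx'⟩ := (isCompact_sphere (0 : ℂ) 1).ultrafilter_le_nhds
      (V.map fun a => e a k) (by
        rw [le_principal_iff]
        exact mem_map.2 (univ_mem' fun a => by
          show e a k ∈ Metric.sphere (0 : ℂ) 1
          rw [mem_sphere_zero_iff_norm]; exact he a k))
    exact ⟨x, mem_sphere_zero_iff_norm.1 hx, hx'⟩
  choose x hx1 hx2 using hx
  have hx0 : ∀ k, x k ≠ 0 := fun k h => by
    have := hx1 k
    rw [h, norm_zero] at this
    exact zero_ne_one this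
  refine ⟨x, hx0, fun g y hg ψ hψ hlim => ?_⟩
  have hgn : ∀ a, ‖g a‖ = 1 := by
    intro a
    rw [hg a, norm_prod]
    refine Finset.prod_eq_one fun k _ => ?_
    rw [norm_zpow, he, one_zpow]
  have h1 : Tendsto g V (𝓝 (∏ k, (x k) ^ (y k))) := by
    have h2 : g = fun a => ∏ k, (e a k) ^ (y k) := funext hg
    rw [h2]
    refine tendsto_finsetProd _ fun k _ => ?_
    exact (hx2 k).zpow₀ (y k) (Or.inl (hx0 k))
  -- convergence along the filter
  have hsq : Tendsto (fun k => ∑' a, p k a * ‖g a - ψ‖ ^ 2) U (𝓝 0) := by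
    have h3 : ∀ a, ‖g a - ψ‖ ^ 2 = 2 - 2 * ((starRingEnd ℂ) ψ * g a).re := by
      intro a
      have h4 : ‖g a - ψ‖ ^ 2 = ‖g a‖ ^ 2 + ‖ψ‖ ^ 2 - 2 * ((starRingEnd ℂ) ψ * g a).re := by
        rw [← Complex.normSq_eq_norm_sq, ← Complex.normSq_eq_norm_sq, ← Complex.normSq_eq_norm_sq,
          Complex.normSq_sub]
        simp only [Complex.mul_re, Complex.conj_re, Complex.conj_im]
        ring
      rw [h4, hgn a, hψ]
      ring
    have hsg : ∀ k, Summable fun a => (p k a : ℂ) * g a := fun k => by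
      refine Summable.of_norm ((hps k).congr fun a => ?_)
      rw [norm_mul, hgn, mul_one, Complex.norm_real, Real.norm_of_nonneg (hp0 k a)]
    have h5 : ∀ k, ∑' a, p k a * ‖g a - ψ‖ ^ 2 =
        2 * (∑' a, p k a) - 2 * ((starRingEnd ℂ) ψ * ∑' a, (p k a : ℂ) * g a).re := by
      intro k
      have h6 : ∀ a, p k a * ‖g a - ψ‖ ^ 2 =
          2 * p k a - 2 * ((starRingEnd ℂ) ψ * ((p k a : ℂ) * g a)).re := by
        intro a
        rw [h3 a]
        have : ((starRingEnd ℂ) ψ * ((p k a : ℂ) * g a)).re =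
            p k a * ((starRingEnd ℂ) ψ * g a).re := by
          rw [← Complex.re_ofReal_mul]
          congr 1
          ring
        rw [this]
        ring
      simp only [h6]
      have s1 : Summable fun a => 2 * p k a := (hps k).mul_left 2
      have s2 : Summable fun a => (starRingEnd ℂ) ψ * ((p k a : ℂ) * g a) := (hsg k).mul_left _
      have s3 : Summable fun a => ((starRingEnd ℂ) ψ * ((p k a : ℂ) * g a)).re :=
        (Complex.hasSum_re s2.hasSum).summable
      rw [s1.tsum_sub (s3.mul_left 2), tsum_mul_left, tsum_mul_left, ← Complex.re_tsum s2,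
        tsum_mul_left]
    simp only [h5]
    have h7 : Tendsto (fun k => 2 * (∑' a, p k a) -
        2 * ((starRingEnd ℂ) ψ * ∑' a, (p k a : ℂ) * g a).re) U
        (𝓝 (2 * δ - 2 * ((starRingEnd ℂ) ψ * ((δ : ℂ) * ψ)).re)) :=
      (hpl.const_mul 2).sub (((Complex.continuous_re.tendsto _).comp
        (hlim.const_mul _)).const_mul 2)
    have h8 : 2 * δ - 2 * ((starRingEnd ℂ) ψ * ((δ : ℂ) * ψ)).re = 0 := by
      have h9 : (starRingEnd ℂ) ψ * ((δ : ℂ) * ψ) = (δ : ℂ) := by
        have : (starRingEnd ℂ) ψ * ψ = 1 := by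
          rw [mul_comm, Complex.mul_conj, Complex.normSq_eq_norm_sq, hψ]
          simp
        linear_combination (δ : ℂ) * this
      rw [h9, Complex.ofReal_re]
      ring
    rw [h8] at h7
    exact h7
  have h2 : Tendsto g F (𝓝 ψ) := by
    rw [Metric.tendsto_nhds]
    intro ε hε
    show Tendsto (fun k => ∑' a, {a | dist (g a) ψ < ε}ᶜ.indicator (p k) a) U (𝓝 0)
    have h3 : Tendsto (fun k => (ε ^ 2)⁻¹ * ∑' a, p k a * ‖g a - ψ‖ ^ 2) U (𝓝 0) := by
      have := hsq.const_mul (ε ^ 2)⁻¹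
      rwa [mul_zero] at this
    refine squeeze_zero (fun k => tsum_nonneg fun a => indicator_nonneg (fun a _ => hp0 k a) a)
      (fun k => ?_) h3
    rw [← tsum_mul_left]
    have hs4 : Summable fun a => p k a * ‖g a - ψ‖ ^ 2 := by
      refine Summable.of_nonneg_of_le (fun a => mul_nonneg (hp0 k a) (by positivity)) (fun a => ?_)
        ((hps k).mul_right 4)
      refine mul_le_mul_of_nonneg_left ?_ (hp0 k a)
      have : ‖g a - ψ‖ ≤ 2 := by
        refine (norm_sub_le _ _).trans ?_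
        rw [hgn, hψ]; norm_num
      nlinarith [norm_nonneg (g a - ψ)]
    refine Summable.tsum_le_tsum (fun a => ?_) ((hps k).indicator _) (hs4.mul_left _)
    by_cases ha : dist (g a) ψ < ε
    · rw [indicator_of_notMem (fun h : a ∈ {a | dist (g a) ψ < ε}ᶜ => h ha)]
      exact mul_nonneg (by positivity) (mul_nonneg (hp0 k a) (by positivity))
    · rw [indicator_of_mem (show a ∈ {a | dist (g a) ψ < ε}ᶜ from ha)]
      rw [dist_eq_norm] at ha
      push Not at ha
      have h5 : 1 ≤ (ε ^ 2)⁻¹ * ‖g a - ψ‖ ^ 2 := by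
        rw [le_inv_mul_iff₀ (by positivity), mul_one]
        exact pow_le_pow_left₀ hε.le ha 2
      calc p k a = p k a * 1 := (mul_one _).symm
        _ ≤ p k a * ((ε ^ 2)⁻¹ * ‖g a - ψ‖ ^ 2) := mul_le_mul_of_nonneg_left h5 (hp0 k a)
        _ = _ := by ring
  exact tendsto_nhds_unique (h2.mono_left hVF) h1

/-- a bounded sequence has a limit along an ultrafilter -/
theorem exists_lim (U : Ultrafilter ℕ) (F : ℕ → ℂ) (hF : ∀ k, ‖F k‖ ≤ 1) :
    ∃ z : ℂ, Tendsto F U (𝓝 z) := by
  obtain ⟨z, -, hz⟩ := (isCompact_closedBall (0 : ℂ) 1).ultrafilter_le_nhds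
    (U.map F) (by
      rw [le_principal_iff]
      exact mem_map.2 (univ_mem' fun k => by
        show F k ∈ Metric.closedBall (0 : ℂ) 1
        rw [mem_closedBall_zero_iff]; exact hF k))
  exact ⟨z, hz⟩

/-- if along `U` at least half of the weight lies in the translated lattice `A ℤⁿ + τ`, then the
Fourier transform vanishes at the nonzero points of a lattice -/
theorem half (S P Q : Set (Fin n → ℝ)) [Countable S] [Countable P] [Countable Q]
    (e : (P ⊕ Q) ≃ S) (heP : ∀ a : P, (e (Sum.inl a) : Fin n → ℝ) = a)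
    (heQ : ∀ a : Q, (e (Sum.inr a) : Fin n → ℝ) = a)
    (h : BD (fun a : S => (a : Fin n → ℝ)))
    (A : (Fin n → ℝ) ≃ₗ[ℝ] (Fin n → ℝ)) (τ : Fin n → ℝ) (hP : P ⊆ Lat A τ)
    (f : (Fin n → ℝ) → ℂ) (hf : Integrable f) (w : ℂ)
    (ht : ∀ᵐ x, HasSum (fun a : S => f (x - a)) w) (c : ℕ → Fin n → ℝ)
    (hN : ∀ k : ℕ, 0 < Nw (fun a : S => (a : Fin n → ℝ)) (1 / ((k : ℝ) + 1)) (c k))
    (hmax : ∀ (k : ℕ) c', Nw (fun a : S => (a : Fin n → ℝ)) (1 / ((k : ℝ) + 1)) c' ≤
      2 * Nw (fun a : S => (a : Fin n → ℝ)) (1 / ((k : ℝ) + 1)) (c k))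
    (U : Ultrafilter ℕ) (hU : (U : Filter ℕ) ≤ atTop) (p : ℕ → (Fin n → ℝ) → ℝ)
    (hp : p = fun (k : ℕ) a => W n (1 / ((k : ℝ) + 1)) (c k) a /
      Nw (fun a : S => (a : Fin n → ℝ)) (1 / ((k : ℝ) + 1)) (c k))
    (dP dQ : ℝ) (hdP : Tendsto (fun k => ∑' a : P, p k a) U (𝓝 dP))
    (hdQ : Tendsto (fun k => ∑' a : Q, p k a) U (𝓝 dQ)) (hd1 : dP + dQ = 1)
    (hle : dQ ≤ dP) :
    ∃ q : ℕ, 0 < q ∧ ∀ y : Fin n → ℤ, y ≠ 0 →
      ∫ x, f x * E (fun j => (q : ℝ) * y j) (A.symm x) = 0 := by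
  classical
  have hε : ∀ k : ℕ, (0 : ℝ) < 1 / ((k : ℝ) + 1) := fun k => by positivity
  have hε1 : ∀ k : ℕ, (1 : ℝ) / ((k : ℝ) + 1) ≤ 1 := fun k => by
    rw [div_le_one (by positivity)]
    have : (0 : ℝ) ≤ k := Nat.cast_nonneg k
    linarith
  have hp0 : ∀ k a, 0 ≤ p k a := fun k a => by
    rw [hp]
    exact div_nonneg (W_pos (hε k) _ _).le (hN k).le
  have hpS : ∀ k, Summable fun a : S => p k a := fun k => by
    rw [hp]
    exact (h.summable (hε k) (hε1 k) (c k)).div_const _
  have hpP : ∀ k, Summable fun a : P => p k a := fun k => by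
    have h1 := (hpS k).comp_injective (e.injective.comp Sum.inl_injective)
    refine h1.congr fun a => ?_
    show p k (e (Sum.inl a)) = p k a
    rw [heP]
  have hpQ : ∀ k, Summable fun a : Q => p k a := fun k => by
    have h1 := (hpS k).comp_injective (e.injective.comp Sum.inr_injective)
    refine h1.congr fun a => ?_
    show p k (e (Sum.inr a)) = p k a
    rw [heQ]
  have hsplit : ∀ (k : ℕ) (s : Fin n → ℝ), ∑' a : S, (p k a : ℂ) * E s a =
      ∑' a : P, (p k a : ℂ) * E s a + ∑' a : Q, (p k a : ℂ) * E s a := by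
    intro k s
    have h1 := e.tsum_eq (fun a : S => (p k a : ℂ) * E s a)
    have hnorm : ∀ a : Fin n → ℝ, ‖(p k a : ℂ) * E s a‖ = p k a := fun a => by
      rw [norm_mul, E_norm, mul_one, Complex.norm_real, Real.norm_of_nonneg (hp0 k a)]
    have sP : Summable fun a : P => (p k a : ℂ) * E s a :=
      Summable.of_norm ((hpP k).congr fun a => (hnorm a).symm)
    have sQ : Summable fun a : Q => (p k a : ℂ) * E s a :=
      Summable.of_norm ((hpQ k).congr fun a => (hnorm a).symm)
    rw [← h1]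
    have h2 : HasSum (fun b : P ⊕ Q => (p k (e b) : ℂ) * E s (e b))
        (∑' a : P, (p k a : ℂ) * E s a + ∑' a : Q, (p k a : ℂ) * E s a) := by
      refine HasSum.sum ?_ ?_
      · refine sP.hasSum.congr_fun ?_ |> id
        intro a
        show (p k (e (Sum.inl a)) : ℂ) * E s (e (Sum.inl a)) = _
        rw [heP]
      · refine sQ.hasSum.congr_fun ?_ |> id
        intro a
        show (p k (e (Sum.inr a)) : ℂ) * E s (e (Sum.inr a)) = _
        rw [heQ]
    exact h2.tsum_eq
  have hpt : ∀ k, ∑' a : P, p k a + ∑' a : Q, p k a = 1 := by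
    intro k
    have h1 := hsplit k 0
    simp only [E_zero, mul_one] at h1
    rw [← Complex.ofReal_tsum, ← Complex.ofReal_tsum, ← Complex.ofReal_tsum,
      ← Complex.ofReal_add] at h1
    have h2 := Complex.ofReal_injective h1
    rw [← h2, hp]
    simp only
    rw [tsum_div_const]
    exact div_self (hN k).ne'
  have hdQ0 : 0 ≤ dQ := ge_of_tendsto' hdQ fun k => tsum_nonneg fun a => hp0 k a
  have hQb : ∀ (k : ℕ) (s : Fin n → ℝ), ‖∑' a : Q, (p k a : ℂ) * E s a‖ ≤ ∑' a : Q, p k a := by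
    intro k s
    have hnorm : ∀ a : Q, ‖(p k a : ℂ) * E s a‖ = p k a := fun a => by
      rw [norm_mul, E_norm, mul_one, Complex.norm_real, Real.norm_of_nonneg (hp0 k a)]
    have h4 := norm_tsum_le_tsum_norm (f := fun a : Q => (p k a : ℂ) * E s a)
      (by simp only [hnorm]; exact hpQ k)
    simp only [hnorm] at h4
    exact h4
  have hQ1 : ∀ k, ∑' a : Q, p k a ≤ 1 := fun k => by
    have h1 : 0 ≤ ∑' a : P, p k a := tsum_nonneg fun a => hp0 k a
    linarith [hpt k]
  choose cc hcc using fun s : Fin n → ℝ => exists_lim U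
    (fun k => ∑' a : Q, (p k a : ℂ) * E s a) fun k => (hQb k s).trans (hQ1 k)
  have hccb : ∀ s, ‖cc s‖ ≤ dQ := fun s =>
    le_of_tendsto_of_tendsto' (hcc s).norm hdQ fun k => hQb k s
  -- it is enough that the limit of the mean does not vanish
  have main : ∀ (q : ℕ), 0 < q → (∀ y : Fin n → ℤ, y ≠ 0 →
      (dP : ℂ) * E (dual A (fun j => (q : ℝ) * y j)) τ +
        cc (dual A (fun j => (q : ℝ) * y j)) ≠ 0) →
      ∀ y : Fin n → ℤ, y ≠ 0 → ∫ x, f x * E (fun j => (q : ℝ) * y j) (A.symm x) = 0 := by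
    intro q hq hnz y hy
    set s : Fin n → ℝ := dual A (fun j => (q : ℝ) * y j) with hs
    have hs0 : s ≠ 0 := by
      apply dual_ne
      intro h0
      apply hy
      funext j
      have h1 : (q : ℝ) * y j = 0 := congrFun h0 j
      have hq' : (q : ℝ) ≠ 0 := by positivity
      have h3 := (mul_eq_zero.1 h1).resolve_left hq'
      show y j = 0
      exact_mod_cast h3
    have hval : ∀ a : P, E s a = E s τ := by
      intro a
      obtain ⟨z, hz⟩ := hP a.2
      have hz' : A (fun l => (z l : ℝ)) + τ = a := hz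
      rw [← hz', E_add]
      have : E s (A fun l => (z l : ℝ)) = 1 := by
        rw [hs, E_dual, A.symm_apply_apply, E_int]
      rw [this, one_mul]
    have hPl : Tendsto (fun k => ∑' a : P, (p k a : ℂ) * E s a) U (𝓝 ((dP : ℂ) * E s τ)) := by
      have h1 : (fun k => ∑' a : P, (p k a : ℂ) * E s a) =
          fun k => ((∑' a : P, p k a : ℝ) : ℂ) * E s τ := by
        funext k
        rw [Complex.ofReal_tsum, ← tsum_mul_right]
        exact tsum_congr fun a => by rw [hval a]
      rw [h1]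
      exact ((Complex.continuous_ofReal.tendsto _).comp hdP).mul_const _
    have hkey := (key_limit h f hf w ht c hN hmax s hs0).mono_left hU
    have hmean : Tendsto (fun k : ℕ => (∫ y, f y * E s y) *
        ((∑' a : S, (W n (1 / ((k : ℝ) + 1)) (c k) a : ℂ) * E s a) /
        (Nw (fun a : S => (a : Fin n → ℝ)) (1 / ((k : ℝ) + 1)) (c k) : ℂ))) U
        (𝓝 ((∫ y, f y * E s y) * ((dP : ℂ) * E s τ + cc s))) := by
      refine Tendsto.const_mul _ ?_
      refine (hPl.add (hcc s)).congr fun k => ?_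
      rw [← hsplit k s, hp, ← tsum_div_const]
      refine tsum_congr fun a => ?_
      simp only
      push_cast
      ring
    have h0 := tendsto_nhds_unique hmean hkey
    have h1 := (mul_eq_zero.1 h0).resolve_right (hnz y hy)
    simp only [hs, E_dual] at h1
    exact h1
  rcases hle.lt_or_eq with hlt | heq
  · refine ⟨1, one_pos, main 1 one_pos fun y _ h0 => ?_⟩
    have h1 : ‖(dP : ℂ) * E (dual A (fun j => ((1 : ℕ) : ℝ) * y j)) τ‖ ≤ dQ := by
      rw [eq_neg_of_add_eq_zero_left h0, norm_neg]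
      exact hccb _
    rw [norm_mul, E_norm, mul_one, Complex.norm_real, Real.norm_of_nonneg (by linarith)] at h1
    linarith
  · -- exactly half
    have hQh : dQ = 1 / 2 := by linarith
    have hPh : dP = 1 / 2 := by linarith
    obtain ⟨x, hx0, hx⟩ := char_limit (n := n) (fun k (a : Q) => p k a) (fun k a => hp0 k a)
      hpQ U dQ (by rw [hQh]; norm_num) hdQ (fun a k => ch (A.symm a k))
      (fun a k => ch_norm _)
    obtain ⟨q, hq, hqv⟩ := nonvanish (I := Bool) (K := Fin n) (fun _ => (1 / 2 : ℂ))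
      (fun i k => if i then ch (A.symm τ k) else x k) (fun i k => by
        cases i
        · simpa using hx0 k
        · simp only [if_true]
          intro h0
          have := ch_norm (A.symm τ k)
          rw [h0, norm_zero] at this
          exact zero_ne_one this)
    refine ⟨q, hq, main q hq fun y _ h0 => ?_⟩
    set s : Fin n → ℝ := dual A (fun j => (q : ℝ) * y j) with hs
    have hEτ : E s τ = ∏ k, (ch (A.symm τ k)) ^ ((q : ℤ) * y k) := by
      rw [hs, E_dual, E_prod]
    have hc1 : cc s = (dQ : ℂ) * (-E s τ) := by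
      have := eq_neg_of_add_eq_zero_right h0
      rw [this, hPh, hQh]
      ring
    have h2 := hx (fun a => E s a) (fun k => (q : ℤ) * y k) (fun a => by
      show E s a = _
      rw [hs, E_dual, E_prod]) (-E s τ) (by rw [norm_neg, E_norm]) (hc1 ▸ hcc s)
    have h3 := hqv y Finset.univ (by simp)
    apply h3
    rw [Fintype.sum_bool]
    simp only [if_true, Bool.false_eq_true, if_false]
    rw [← hEτ, ← h2]
    ring

end Pool.Agent.TH789.LT
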