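import Pool.Agent.TH789.LT.Two

set_option autoImplicit false

/-!
Subsets of the union of two translated lattices.
-/

open MeasureTheory Set Filter Topology

namespace Pool.Agent.TH789.LT

open Pool.Agent.H239R2.Flat

variable {n : ℕ}

theorem BD_two (A B : (Fin n → ℝ) ≃ₗ[ℝ] (Fin n → ℝ)) (σ τ : Fin n → ℝ) (S : Set (Fin n → ℝ))
    (hS : S ⊆ Lat A σ ∪ Lat B τ) : BD (fun a : S => (a : Fin n → ℝ)) := by
  classical
  intro ε hε _
  obtain ⟨B1, -, h1⟩ := BD_lat A σ hε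
  obtain ⟨B2, -, h2⟩ := BD_lat B τ hε
  refine ⟨B1 + B2, fun c T => ?_⟩
  rw [← Finset.sum_filter_add_sum_filter_not T fun a : S => (a : Fin n → ℝ) ∈ Lat A σ]
  refine add_le_add (h1 _ _ _ c ?_ ?_) (h2 _ _ _ c ?_ ?_)
  · intro a ha
    exact (Finset.mem_filter.1 ha).2
  · intro a _ b _ hab
    exact Subtype.ext hab
  · intro a ha
    exact (hS a.2).resolve_left (Finset.mem_filter.1 ha).2
  · intro a _ b _ hab
    exact Subtype.ext hab

theorem two_lattices (A B : (Fin n → ℝ) ≃ₗ[ℝ] (Fin n → ℝ)) (σ τ : Fin n → ℝ)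
    (S : Set (Fin n → ℝ)) (hS : S ⊆ Lat A σ ∪ Lat B τ) (hne : S.Nonempty)
    (f : (Fin n → ℝ) → ℂ) (hf : Integrable f) (w : ℂ)
    (ht : ∀ᵐ x, HasSum (fun a : S => f (x - a)) w) :
    ∃ (C : (Fin n → ℝ) ≃ₗ[ℝ] (Fin n → ℝ)) (q : ℕ), 0 < q ∧ ∀ y : Fin n → ℤ, y ≠ 0 →
      ∫ x, f x * E (fun j => (q : ℝ) * y j) (C.symm x) = 0 := by
  classical
  have hSc : S.Countable := ((lat_countable A σ).union (lat_countable B τ)).mono hS
  set P : Set (Fin n → ℝ) := S ∩ Lat A σ with hP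
  have hPS : P ⊆ S := inter_subset_left
  set Q : Set (Fin n → ℝ) := S \ P with hQ
  have hQS : Q ⊆ S := sdiff_subset
  have hQB : Q ⊆ Lat B τ := by
    intro a ha
    exact (hS ha.1).resolve_left fun h => ha.2 ⟨ha.1, h⟩
  have : Countable S := hSc.to_subtype
  have : Countable P := (hSc.mono hPS).to_subtype
  have : Countable Q := (hSc.mono hQS).to_subtype
  have : Nonempty S := hne.to_subtype
  have h : BD (fun a : S => (a : Fin n → ℝ)) := BD_two A B σ τ S hS
  have hε : ∀ k : ℕ, (0 : ℝ) < 1 / ((k : ℝ) + 1) := fun k => by positivity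
  have hε1 : ∀ k : ℕ, (1 : ℝ) / ((k : ℝ) + 1) ≤ 1 := fun k => by
    rw [div_le_one (by positivity)]
    have : (0 : ℝ) ≤ k := Nat.cast_nonneg k
    linarith
  choose c hN hmax using fun k : ℕ => h.center (hε k) (hε1 k)
  let e : (P ⊕ Q) ≃ S := Equiv.Set.sumDiffSubset hPS
  have heP : ∀ a : P, (e (Sum.inl a) : Fin n → ℝ) = a := fun a => by
    show ((Equiv.Set.sumDiffSubset hPS (Sum.inl a) : S) : Fin n → ℝ) = a
    rw [Equiv.Set.sumDiffSubset_apply_inl]
  have heQ : ∀ a : Q, (e (Sum.inr a) : Fin n → ℝ) = a := fun a => by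
    show ((Equiv.Set.sumDiffSubset hPS (Sum.inr a) : S) : Fin n → ℝ) = a
    rw [Equiv.Set.sumDiffSubset_apply_inr]
  obtain ⟨p, hp⟩ : ∃ p : ℕ → (Fin n → ℝ) → ℝ, p = fun (k : ℕ) a =>
      W n (1 / ((k : ℝ) + 1)) (c k) a /
        Nw (fun a : S => (a : Fin n → ℝ)) (1 / ((k : ℝ) + 1)) (c k) := ⟨_, rfl⟩
  have hp0 : ∀ k a, 0 ≤ p k a := fun k a => by
    rw [hp]
    exact div_nonneg (W_pos (hε k) _ _).le (hN k).le
  have hpS : ∀ k, Summable fun a : S => p k a := fun k => by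
    rw [hp]
    exact (h.summable (hε k) (hε1 k) (c k)).div_const _
  have hpP : ∀ k, Summable fun a : P => p k a := fun k => sub_summable hPS (p k) (hpS k)
  have hpQ : ∀ k, Summable fun a : Q => p k a := fun k => sub_summable hQS (p k) (hpS k)
  have hpt : ∀ k, ∑' a : P, p k a + ∑' a : Q, p k a = 1 := by
    intro k
    have h2 : HasSum (fun b : P ⊕ Q => p k (e b)) (∑' a : P, p k a + ∑' a : Q, p k a) := by
      refine HasSum.sum ?_ ?_
      · refine (hpP k).hasSum.congr_fun ?_ |> id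
        intro a
        show p k (e (Sum.inl a)) = _
        rw [heP]
      · refine (hpQ k).hasSum.congr_fun ?_ |> id
        intro a
        show p k (e (Sum.inr a)) = _
        rw [heQ]
    rw [← h2.tsum_eq, e.tsum_eq (fun a : S => p k a), hp]
    simp only
    rw [tsum_div_const]
    exact div_self (hN k).ne'
  have hP0 : ∀ k, 0 ≤ ∑' a : P, p k a := fun k => tsum_nonneg fun a => hp0 k a
  have hQ0 : ∀ k, 0 ≤ ∑' a : Q, p k a := fun k => tsum_nonneg fun a => hp0 k a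
  set U : Ultrafilter ℕ := Filter.hyperfilter ℕ with hU
  have hUle : (U : Filter ℕ) ≤ atTop := Nat.hyperfilter_le_atTop
  obtain ⟨dP, -, hdP'⟩ := (isCompact_Icc (a := (0 : ℝ)) (b := 1)).ultrafilter_le_nhds
    (U.map fun k => ∑' a : P, p k a) (by
      rw [le_principal_iff]
      exact mem_map.2 (univ_mem' fun k => ⟨hP0 k, by linarith [hpt k, hQ0 k]⟩))
  have hdP : Tendsto (fun k => ∑' a : P, p k a) U (𝓝 dP) := hdP'
  have hdQ : Tendsto (fun k => ∑' a : Q, p k a) U (𝓝 (1 - dP)) := by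
    refine (tendsto_const_nhds.sub hdP).congr fun k => ?_
    linarith [hpt k]
  rcases le_total (1 - dP) dP with hle | hle
  · obtain ⟨q, hq, hv⟩ := half S P Q e heP heQ h A σ inter_subset_right f hf w ht c hN hmax U hUle
      p hp dP (1 - dP) hdP hdQ (by ring) hle
    exact ⟨A, q, hq, hv⟩
  · obtain ⟨q, hq, hv⟩ := half S Q P ((Equiv.sumComm Q P).trans e) (fun a => heQ a)
      (fun a => heP a) h B τ hQB f hf w ht c hN hmax U hUle
      p hp (1 - dP) dP hdQ hdP (by ring) hle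
    exact ⟨B, q, hq, hv⟩

end Pool.Agent.TH789.LT
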