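import Pool.Agent.TH789.LT.Cls

set_option autoImplicit false

/-!
The Fourier transform of a tile vanishes at the nonzero points of a lattice.
-/

open MeasureTheory Set Filter Topology

namespace Pool.Agent.TH789.LT

open Pool.Agent.H239R2.Flat

variable {n : ℕ}

theorem E_prod (t : Fin n → ℝ) (q : ℕ) (y : Fin n → ℤ) :
    E (fun j => (q : ℝ) * y j) t = ∏ k, (ch (t k)) ^ ((q : ℤ) * y k) := by
  unfold E
  rw [COEF_ch_sum]
  refine Finset.prod_congr rfl fun k _ => ?_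
  unfold ch
  rw [← Complex.exp_int_mul]
  congr 1
  push_cast
  ring

theorem E_int (q : ℕ) (y z : Fin n → ℤ) :
    E (fun j => (q : ℝ) * y j) (fun i => (z i : ℝ)) = 1 := by
  have h := COEF_ch_int (∑ i, (q : ℤ) * y i * z i)
  rw [← h]
  unfold E
  congr 1
  push_cast
  rfl

theorem vanish {I : Type} [Fintype I] (P : I → Set (Fin n → ℝ)) [Countable (Σ i, P i)]
    [Nonempty (Σ i, P i)] (h : BD (pts P)) (A : (Fin n → ℝ) ≃ₗ[ℝ] (Fin n → ℝ))
    (B : I → (Fin n → ℝ) ≃ₗ[ℝ] (Fin n → ℝ)) (τ : I → Fin n → ℝ)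
    (hP : ∀ i, P i = Lat (B i) (τ i) ∨ P i ⊆ Lat A (τ i))
    (f : (Fin n → ℝ) → ℂ) (hf : Integrable f) (w : ℂ)
    (ht : ∀ᵐ x, HasSum (fun a => f (x - pts P a)) w) :
    ∃ (C : (Fin n → ℝ) ≃ₗ[ℝ] (Fin n → ℝ)) (q : ℕ), 0 < q ∧ ∀ y : Fin n → ℤ, y ≠ 0 →
      ∫ x, f x * E (fun j => (q : ℝ) * y j) (C.symm x) = 0 := by
  classical
  have hε : ∀ k : ℕ, (0 : ℝ) < 1 / ((k : ℝ) + 1) := fun k => by positivity
  have hε1 : ∀ k : ℕ, (1 : ℝ) / ((k : ℝ) + 1) ≤ 1 := fun k => by
    rw [div_le_one (by positivity)]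
    have : (0 : ℝ) ≤ k := Nat.cast_nonneg k
    linarith
  choose c hN hmax using fun k : ℕ => h.center (hε k) (hε1 k)
  set U : Filter ℕ := (Filter.hyperfilter ℕ : Filter ℕ) with hU
  have hUle : U ≤ atTop := Nat.hyperfilter_le_atTop
  have hUne : U.NeBot := inferInstance
  have hWs : ∀ k : ℕ, Summable fun a => W n (1 / ((k : ℝ) + 1)) (c k) (pts P a) := fun k =>
    h.summable (hε k) (hε1 k) (c k)
  have hWi : ∀ (k : ℕ) (i : I), Summable fun a : P i => W n (1 / ((k : ℝ) + 1)) (c k) a :=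
    fun k i => (hWs k).sigma_factor i
  set D : ℕ → I → ℝ := fun k i => (∑' a : P i, W n (1 / ((k : ℝ) + 1)) (c k) a) /
    Nw (pts P) (1 / ((k : ℝ) + 1)) (c k) with hD
  have hD0 : ∀ k i, 0 ≤ D k i := fun k i =>
    div_nonneg (tsum_nonneg fun a => (W_pos (hε k) _ _).le) (hN k).le
  have hDs : ∀ k, ∑ i, D k i = 1 := by
    intro k
    rw [hD]
    simp only
    rw [← Finset.sum_div]
    have h1 : ∑ i, ∑' a : P i, W n (1 / ((k : ℝ) + 1)) (c k) a =
        Nw (pts P) (1 / ((k : ℝ) + 1)) (c k) := by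
      have h2 := (hWs k).tsum_sigma
      exact (tsum_fintype (fun i => ∑' a : P i, W n (1 / ((k : ℝ) + 1)) (c k) a)).symm.trans
        h2.symm
    rw [h1, div_self (hN k).ne']
  have hD1 : ∀ k i, D k i ≤ 1 := fun k i => by
    rw [← hDs k]
    exact Finset.single_le_sum (fun j _ => hD0 k j) (Finset.mem_univ i)
  obtain ⟨d, -, hd⟩ := (isCompact_univ_pi fun _ : I => isCompact_Icc (a := (0 : ℝ)) (b := 1)
    ).ultrafilter_le_nhds ((Filter.hyperfilter ℕ).map D) (by
      rw [Filter.le_principal_iff]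
      exact Filter.mem_map.2 (Filter.univ_mem' fun k i _ => ⟨hD0 k i, hD1 k i⟩))
  have hdt : Tendsto D U (𝓝 d) := hd
  have hdi : ∀ i, Tendsto (fun k => D k i) U (𝓝 (d i)) := tendsto_pi_nhds.1 hdt
  have hd0 : ∀ i, 0 ≤ d i := fun i => ge_of_tendsto' (hdi i) fun k => hD0 k i
  have hds : ∑ i, d i = 1 := by
    have h1 : Tendsto (fun k => ∑ i, D k i) U (𝓝 (∑ i, d i)) :=
      tendsto_finsetSum _ fun i _ => hdi i
    simp only [hDs] at h1
    exact (tendsto_nhds_unique h1 tendsto_const_nhds)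
  -- the base lattice
  obtain ⟨C, hC1, hC2⟩ : ∃ C : (Fin n → ℝ) ≃ₗ[ℝ] (Fin n → ℝ),
      (∀ i, P i = Lat (B i) (τ i) ∨ P i ⊆ Lat C (τ i) ∨ d i = 0) ∧
      ∃ i, d i ≠ 0 ∧ P i ⊆ Lat C (τ i) := by
    by_cases hA : ∃ i, d i ≠ 0 ∧ P i ⊆ Lat A (τ i)
    · refine ⟨A, fun i => ?_, hA⟩
      rcases hP i with h1 | h1
      · exact Or.inl h1
      · exact Or.inr (Or.inl h1)
    · push Not at hA
      obtain ⟨i0, hi0⟩ : ∃ i, d i ≠ 0 := by
        by_contra hcon
        push Not at hcon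
        simp [hcon] at hds
      have h1 : P i0 = Lat (B i0) (τ i0) := (hP i0).resolve_right (hA i0 hi0)
      refine ⟨B i0, fun i => ?_, i0, hi0, h1.subset⟩
      rcases hP i with h2 | h2
      · exact Or.inl h2
      · right; right
        by_contra h3
        exact hA i h3 h2
  obtain ⟨q, hq, hqv⟩ := nonvanish (fun i => (d i : ℂ)) (fun i k => ch (C.symm (τ i) k))
    (fun i k h0 => by
      have := ch_norm (C.symm (τ i) k)
      rw [h0, norm_zero] at this
      exact zero_ne_one this)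
  refine ⟨C, q, hq, fun y hy => ?_⟩
  set s : Fin n → ℝ := dual C (fun j => (q : ℝ) * y j) with hs
  have hs0 : s ≠ 0 := by
    apply dual_ne
    intro h0
    apply hy
    funext j
    have h1 := congrFun h0 j
    have h2 : (q : ℝ) * y j = 0 := h1
    have hq' : (q : ℝ) ≠ 0 := by positivity
    have h3 := (mul_eq_zero.1 h2).resolve_left hq'
    show y j = 0
    exact_mod_cast h3
  set J : Finset I := Finset.univ.filter fun i =>
    P i ⊆ Lat C (τ i) ∨ (P i = Lat (B i) (τ i) ∧ ∀ z : Fin n → ℤ, E s (B i fun l => (z l : ℝ)) = 1)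
    with hJ
  have hCz : ∀ z : Fin n → ℤ, E s (C fun l => (z l : ℝ)) = 1 := by
    intro z
    rw [hs, E_dual, C.symm_apply_apply, E_int]
  have hval : ∀ i ∈ J, ∀ a ∈ P i, E s a = E s (τ i) := by
    intro i hi a ha
    rcases (Finset.mem_filter.1 hi).2 with h1 | ⟨h1, h2⟩
    · obtain ⟨z, rfl⟩ := h1 ha
      show E s (C (fun l => (z l : ℝ)) + τ i) = _
      rw [E_add, hCz, one_mul]
    · rw [h1] at ha
      obtain ⟨z, rfl⟩ := ha
      show E s (B i (fun l => (z l : ℝ)) + τ i) = _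
      rw [E_add, h2, one_mul]
  have hlim : ∀ i, Tendsto (fun k : ℕ =>
      (∑' a : P i, (W n (1 / ((k : ℝ) + 1)) (c k) a : ℂ) * E s a) /
        (Nw (pts P) (1 / ((k : ℝ) + 1)) (c k) : ℂ)) U
      (𝓝 (if i ∈ J then (d i : ℂ) * E s (τ i) else 0)) := by
    intro i
    by_cases hi : i ∈ J
    · rw [if_pos hi]
      have h1 : (fun k : ℕ =>
          (∑' a : P i, (W n (1 / ((k : ℝ) + 1)) (c k) a : ℂ) * E s a) /
          (Nw (pts P) (1 / ((k : ℝ) + 1)) (c k) : ℂ)) = fun k => (D k i : ℂ) * E s (τ i) := by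
        funext k
        have h2 : ∑' a : P i, (W n (1 / ((k : ℝ) + 1)) (c k) a : ℂ) * E s a =
            ((∑' a : P i, W n (1 / ((k : ℝ) + 1)) (c k) a : ℝ) : ℂ) * E s (τ i) := by
          rw [Complex.ofReal_tsum, ← tsum_mul_right]
          exact tsum_congr fun a => by rw [hval i hi a a.2]
        rw [h2, hD]
        push_cast
        ring
      rw [h1]
      exact ((Complex.continuous_ofReal.tendsto _).comp (hdi i)).mul_const _
    · rw [if_neg hi]
      rcases hC1 i with h1 | h1 | h1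
      · have h2 : ¬ ∀ z : Fin n → ℤ, E s (B i fun l => (z l : ℝ)) = 1 := fun h3 =>
          hi (Finset.mem_filter.2 ⟨Finset.mem_univ _, Or.inr ⟨h1, h3⟩⟩)
        push Not at h2
        obtain ⟨z, hz⟩ := h2
        exact (class_zero P h c hN hmax i (B i) (τ i) h1 s z hz).mono_left hUle
      · exact (hi (Finset.mem_filter.2 ⟨Finset.mem_univ _, Or.inl h1⟩)).elim
      · have h2 : Tendsto (fun k => D k i) U (𝓝 0) := h1 ▸ hdi i
        refine squeeze_zero_norm (fun k => ?_) h2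
        rw [norm_div, Complex.norm_real, Real.norm_of_nonneg (hN k).le]
        refine div_le_div_of_nonneg_right ?_ (hN k).le
        have h3 : ∀ a : P i, ‖(W n (1 / ((k : ℝ) + 1)) (c k) a : ℂ) * E s a‖ =
            W n (1 / ((k : ℝ) + 1)) (c k) a := fun a => by
          rw [norm_mul, E_norm, mul_one, Complex.norm_real, Real.norm_of_nonneg
            (W_pos (hε k) _ _).le]
        have h4 := norm_tsum_le_tsum_norm (f := fun a : P i =>
          (W n (1 / ((k : ℝ) + 1)) (c k) a : ℂ) * E s a) (by simp only [h3]; exact hWi k i)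
        simp only [h3] at h4
        exact h4
  have hsumlim : Tendsto (fun k : ℕ =>
      (∑' a : Σ i, P i, (W n (1 / ((k : ℝ) + 1)) (c k) (pts P a) : ℂ) * E s (pts P a)) /
        (Nw (pts P) (1 / ((k : ℝ) + 1)) (c k) : ℂ)) U (𝓝 (∑ i ∈ J, (d i : ℂ) * E s (τ i))) := by
    have h1 := tendsto_finsetSum Finset.univ fun i _ => hlim i
    rw [Finset.sum_ite_mem, Finset.univ_inter] at h1
    refine h1.congr fun k => ?_
    rw [← Finset.sum_div]
    congr 1
    have h2 : Summable fun a : Σ i, P i =>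
        (W n (1 / ((k : ℝ) + 1)) (c k) (pts P a) : ℂ) * E s (pts P a) := by
      refine Summable.of_norm ((hWs k).congr fun a => ?_)
      rw [norm_mul, E_norm, mul_one, Complex.norm_real, Real.norm_of_nonneg (W_pos (hε k) _ _).le]
    have h3 := h2.tsum_sigma
    exact (tsum_fintype (fun i => ∑' a : P i,
      (W n (1 / ((k : ℝ) + 1)) (c k) a : ℂ) * E s a)).symm.trans h3.symm
  have hkey := (key_limit h f hf w ht c hN hmax s hs0).mono_left hUle
  have hprod := hsumlim.const_mul (∫ y, f y * E s y)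
  have h0 : (∫ y, f y * E s y) * ∑ i ∈ J, (d i : ℂ) * E s (τ i) = 0 :=
    tendsto_nhds_unique hprod hkey
  have hm : ∑ i ∈ J, (d i : ℂ) * E s (τ i) ≠ 0 := by
    have h1 : ∑ i ∈ J, (d i : ℂ) ≠ 0 := by
      rw [← Complex.ofReal_sum]
      obtain ⟨i, hi, hi'⟩ := hC2
      have h2 : 0 < ∑ i ∈ J, d i := Finset.sum_pos' (fun j _ => hd0 j)
        ⟨i, Finset.mem_filter.2 ⟨Finset.mem_univ _, Or.inl hi'⟩, lt_of_le_of_ne (hd0 i) hi.symm⟩
      exact_mod_cast h2.ne'
    have h2 := hqv y J h1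
    refine fun h3 => h2 ?_
    rw [← h3]
    refine Finset.sum_congr rfl fun i _ => ?_
    rw [hs, E_dual, E_prod]
  have h1 := (mul_eq_zero.1 h0).resolve_right hm
  simp only [hs, E_dual] at h1
  exact h1

end Pool.Agent.TH789.LT
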