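import Pool.Agent.H239R2.Flat.COEF

set_option autoImplicit false

/-!
Slowly varying weights on `ℝⁿ`.
-/

open MeasureTheory Set Filter Topology

namespace Pool.Agent.TH789.LT

open Pool.Agent.H239R2.Flat

variable {n : ℕ}

/-- the weight `(1 + ε |x + c|)^{-(n+1)}` -/
noncomputable def W (n : ℕ) (ε : ℝ) (c x : Fin n → ℝ) : ℝ := ((1 + ε * ‖x + c‖) ^ (n + 1))⁻¹

theorem W_base {ε : ℝ} (hε : 0 < ε) (c x : Fin n → ℝ) : 1 ≤ 1 + ε * ‖x + c‖ := by
  have := mul_nonneg hε.le (norm_nonneg (x + c))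
  linarith

theorem W_pos {ε : ℝ} (hε : 0 < ε) (c x : Fin n → ℝ) : 0 < W n ε c x := by
  have := W_base hε c x
  unfold W
  positivity

theorem W_le_one {ε : ℝ} (hε : 0 < ε) (c x : Fin n → ℝ) : W n ε c x ≤ 1 := by
  have := W_base hε c x
  exact inv_le_one_of_one_le₀ (one_le_pow₀ this)

theorem W_shift {ε : ℝ} (hε : 0 < ε) (c x v : Fin n → ℝ) :
    W n ε c (x + v) ≤ (1 + ε * ‖v‖) ^ (n + 1) * W n ε c x := by
  have ha := W_base hε c (x + v)
  have hb := W_base hε c x
  have hr : 1 ≤ 1 + ε * ‖v‖ := by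
    have := mul_nonneg hε.le (norm_nonneg v)
    linarith
  have hle : 1 + ε * ‖x + c‖ ≤ (1 + ε * ‖x + v + c‖) * (1 + ε * ‖v‖) := by
    have h1 : ‖x + c‖ ≤ ‖x + v + c‖ + ‖v‖ := by
      calc ‖x + c‖ = ‖(x + v + c) - v‖ := by congr 1; abel
        _ ≤ _ := norm_sub_le _ _
    have h2 := mul_le_mul_of_nonneg_left h1 hε.le
    have h3 : 0 ≤ (ε * ‖x + v + c‖) * (ε * ‖v‖) := by positivity
    nlinarith
  unfold W
  have ha' : 0 < (1 + ε * ‖x + v + c‖) ^ (n + 1) := by positivity
  have hb' : 0 < (1 + ε * ‖x + c‖) ^ (n + 1) := by positivity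
  rw [← div_eq_mul_inv, le_div_iff₀ hb', inv_mul_le_iff₀ ha', ← mul_pow]
  exact pow_le_pow_left₀ (by positivity) hle _

theorem W_shift' {ε : ℝ} (hε : 0 < ε) (c x v : Fin n → ℝ) :
    W n ε c x ≤ (1 + ε * ‖v‖) ^ (n + 1) * W n ε c (x + v) := by
  have := W_shift hε c (x + v) (-v)
  rwa [add_neg_cancel_right, norm_neg] at this

theorem W_center (ε : ℝ) (c x y : Fin n → ℝ) : W n ε c (x + y) = W n ε (c + y) x := by
  have : x + y + c = x + (c + y) := by abel
  rw [W, W, this]

theorem W_diff {ε : ℝ} (hε : 0 < ε) (c x v : Fin n → ℝ) :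
    |W n ε c (x + v) - W n ε c x| ≤
      ((1 + ε * ‖v‖) ^ (n + 1) - 1) * (W n ε c x + W n ε c (x + v)) := by
  have h1 := W_shift hε c x v
  have h2 := W_shift' hε c x v
  have h3 := W_pos hε c x
  have h4 := W_pos hε c (x + v)
  have h5 : 0 ≤ (1 + ε * ‖v‖) ^ (n + 1) - 1 := by
    have : (1 : ℝ) ≤ (1 + ε * ‖v‖) ^ (n + 1) := one_le_pow₀ (by
      have := mul_nonneg hε.le (norm_nonneg v)
      linarith)
    linarith
  rw [abs_le]
  constructor <;> nlinarith [mul_nonneg h5 h3.le, mul_nonneg h5 h4.le]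

theorem W_cont {ε : ℝ} (hε : 0 < ε) (c : Fin n → ℝ) : Continuous (W n ε c) := by
  unfold W
  refine Continuous.inv₀ (by fun_prop) fun x => ?_
  have := W_base hε c x
  positivity

theorem W_int {ε : ℝ} (hε : 0 < ε) (hε1 : ε ≤ 1) (c : Fin n → ℝ) : Integrable (W n ε c) := by
  have h0 : Integrable (fun x : Fin n → ℝ => (1 + ‖x‖) ^ (-((n + 1 : ℕ) : ℝ))) := by
    apply integrable_one_add_norm
    simp
  have h1 : Integrable (W n ε 0) := by
    refine Integrable.mono' (h0.const_mul ((ε ^ (n + 1))⁻¹)) (W_cont hε 0).aestronglyMeasurable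
      (Eventually.of_forall fun x => ?_)
    rw [Real.norm_of_nonneg (W_pos hε 0 x).le, Real.rpow_neg (by positivity), Real.rpow_natCast,
      ← mul_inv, ← mul_pow]
    unfold W
    rw [add_zero]
    apply inv_anti₀ (by positivity)
    apply pow_le_pow_left₀ (by positivity)
    nlinarith [norm_nonneg x]
  have h2 := h1.comp_add_right c
  refine h2.congr (Eventually.of_forall fun x => ?_)
  show W n ε 0 (x + c) = W n ε c x
  rw [W_center, zero_add]

theorem W_integral (ε : ℝ) (c : Fin n → ℝ) : ∫ x, W n ε c x = ∫ x, W n ε 0 x := by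
  have h := integral_add_right_eq_self (μ := volume) (fun x => W n ε 0 x) c
  rw [← h]
  congr 1
  funext x
  rw [W_center, zero_add]

theorem W_integral_nonneg {ε : ℝ} (hε : 0 < ε) (c : Fin n → ℝ) : 0 ≤ ∫ x, W n ε c x :=
  integral_nonneg fun x => (W_pos hε c x).le

theorem W_lat {ε : ℝ} (hε : 0 < ε) (hε1 : ε ≤ 1) (c u : Fin n → ℝ) (T : Finset (Fin n → ℤ)) :
    ∑ k ∈ T, W n ε c (u + fun i => (k i : ℝ)) ≤ (1 + ε) ^ (n + 1) * ∫ x, W n ε 0 x := by
  have hi : Integrable (fun x : Fin n → ℝ => W n ε (c + u) x) := W_int hε hε1 _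
  have hs := COEF_unfold n (fun x => ((W n ε (c + u) x : ℝ) : ℂ)) hi.ofReal
  simp only [integral_complex_ofReal] at hs
  have hs' : HasSum (fun z : Fin n → ℤ => ∫ x in COEF_cube n, W n ε (c + u) (fun i => x i - z i))
      (∫ x, W n ε (c + u) x) := by exact_mod_cast hs
  rw [W_integral] at hs'
  have hs2 := (Equiv.neg (Fin n → ℤ)).hasSum_iff.2 hs'
  have hvol : volume (COEF_cube n) = 1 := by
    have : COEF_cube n = Set.univ.pi fun _ => Set.Ioc (0 : ℝ) (0 + 1) := by
      ext x
      simp [COEF_cube]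
    rw [this, volume_pi_pi]
    simp
  have hterm : ∀ k : Fin n → ℤ, W n ε c (u + fun i => (k i : ℝ)) ≤
      (1 + ε) ^ (n + 1) * ∫ x in COEF_cube n, W n ε (c + u) (fun i => x i - (-k) i) := by
    intro k
    rw [← integral_const_mul]
    have h1 : W n ε c (u + fun i => (k i : ℝ)) =
        ∫ x in COEF_cube n, W n ε c (u + fun i => (k i : ℝ)) := by
      rw [setIntegral_const, measureReal_def, hvol]
      simp
    rw [h1]
    refine setIntegral_mono_on (integrableOn_const (by rw [hvol]; exact ENNReal.one_ne_top)) ?_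
      (COEF_cube_meas n) ?_
    · have h3 : Integrable (fun x : Fin n → ℝ => W n ε (c + u) (fun i => x i - (-k) i)) := by
        have h4 := hi.comp_add_right (fun i => (k i : ℝ))
        refine h4.congr (Eventually.of_forall fun x => ?_)
        show W n ε (c + u) (x + fun i => (k i : ℝ)) = _
        congr 1
        funext i
        simp
      exact (h3.const_mul _).integrableOn
    · intro x hx
      have h2 : ‖x‖ ≤ 1 := by
        rw [pi_norm_le_iff_of_nonneg zero_le_one]
        intro i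
        have := hx i
        rw [Real.norm_eq_abs, abs_of_pos this.1]
        linarith [this.2]
      have h3 := W_shift' hε c (u + fun i => (k i : ℝ)) x
      have h4 : W n ε (c + u) (fun i => x i - (-k) i) = W n ε c (u + (fun i => (k i : ℝ)) + x) := by
        have h5 : (fun i => x i - (((-k) i : ℤ) : ℝ)) + (c + u) =
            u + (fun i => (k i : ℝ)) + x + c := by
          funext i
          simp only [Pi.add_apply, Pi.neg_apply]
          push_cast
          ring
        rw [W, W, h5]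
      rw [h4]
      refine h3.trans (mul_le_mul_of_nonneg_right ?_ (W_pos hε _ _).le)
      apply pow_le_pow_left₀ (by positivity)
      nlinarith [norm_nonneg x]
  calc ∑ k ∈ T, W n ε c (u + fun i => (k i : ℝ))
      ≤ ∑ k ∈ T, (1 + ε) ^ (n + 1) *
          ∫ x in COEF_cube n, W n ε (c + u) (fun i => x i - (-k) i) :=
        Finset.sum_le_sum fun k _ => hterm k
    _ = (1 + ε) ^ (n + 1) *
          ∑ k ∈ T, ∫ x in COEF_cube n, W n ε (c + u) (fun i => x i - (-k) i) := by
        rw [Finset.mul_sum]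
    _ ≤ _ := by
        refine mul_le_mul_of_nonneg_left ?_ (by positivity)
        exact sum_le_hasSum T (fun k _ => integral_nonneg fun x => (W_pos hε _ _).le) hs2

end Pool.Agent.TH789.LT
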